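import Mathlib.ModelTheory.Definability

/-!
# Models of Zermelo–Fraenkel set theory `ZF`

A model of `ZF` is a set `M` with a binary relation `E` (`E x y` is read: `x` is an element of `y`) that satisfies the usual first order axioms.  The two schemas are stated for all subsets
of `M`, respectively of `M × M`, that are first-order definable with parameters in the structure
`(M, E)` (Mathlib's `Set.Definable₁` and `Set.Definable₂`).  The axiom of choice is not assumed.
-/

universe u

namespace Pool.Agent.ZF

/-- The only relation symbol of the language of set theory. -/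
inductive MemRel : ℕ → Type
  | mem : MemRel 2

/-- The language of set theory: one binary relation symbol. -/
def L : FirstOrder.Language := ⟨fun _ => Empty, MemRel⟩

/-- `(M, E)` as a first-order structure. -/
@[reducible]
def str {M : Type u} (E : M → M → Prop) : L.Structure M where
  funMap := fun {_} f => Empty.elim f
  RelMap := fun {_} r => match r with
    | MemRel.mem => fun v => E (v 0) (v 1)

/-- `D` is first-order definable with parameters in `(M, E)`. -/
def Definable₁ {M : Type u} (E : M → M → Prop) (D : Set M) : Prop :=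
  @Set.Definable₁ M Set.univ L (str E) D

/-- `R` is first-order definable with parameters in `(M, E)`. -/
def Definable₂ {M : Type u} (E : M → M → Prop) (R : Set (M × M)) : Prop :=
  @Set.Definable₂ M Set.univ L (str E) R

/-- The axioms of Zermelo–Fraenkel set theory (without choice). -/
structure IsZF {M : Type u} (E : M → M → Prop) : Prop where
  nonempty : Nonempty M
  extensionality : ∀ x y, (∀ z, E z x ↔ E z y) → x = y
  foundation : ∀ x, (∃ y, E y x) → ∃ y, E y x ∧ ∀ z, E z x → ¬ E z y
  pairing : ∀ x y, ∃ p, ∀ z, E z p ↔ z = x ∨ z = y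
  union : ∀ x, ∃ u, ∀ z, E z u ↔ ∃ y, E z y ∧ E y x
  power : ∀ x, ∃ p, ∀ z, E z p ↔ ∀ w, E w z → E w x
  infinity : ∃ x, (∃ e, E e x ∧ ∀ z, ¬ E z e) ∧
    ∀ y, E y x → ∃ s, E s x ∧ ∀ z, E z s ↔ E z y ∨ z = y
  separation : ∀ D : Set M, Definable₁ E D → ∀ a, ∃ b, ∀ z, E z b ↔ E z a ∧ z ∈ D
  replacement : ∀ R : Set (M × M), Definable₂ E R → ∀ a,
    (∀ x, E x a → ∃! y, (x, y) ∈ R) → ∃ b, ∀ y, E y b ↔ ∃ x, E x a ∧ (x, y) ∈ R

end Pool.Agent.ZF
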