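import Mathlib
import Pool.Agent.ZF.Axioms

/-!
# Definability calculus in a model of `ZF`

`Fo M P` : the predicate `P` on a context is first-order definable with parameters.
`Ft t` : the function `t` from a context to `M` has a definable graph.
Both are classes, so that definability is found by type class inference.
Contexts are `PUnit`, `PUnit × M`, `(PUnit × M) × M`, ...
-/

universe u

namespace Pool.Agent.ZF

/-- a model of `ZF`, bundled as a class -/
class Model (M : Type u) where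
  /-- the membership relation -/
  E : M → M → Prop
  zf : IsZF E

instance (M : Type u) [Model M] : Membership M M := ⟨fun y x => Model.E x y⟩

instance (M : Type u) [Model M] : L.Structure M := str (Model.E (M := M))

/-- contexts: `PUnit`, `PUnit × M`, `(PUnit × M) × M`, ... -/
class Ctx (M : Type u) (Γ : Type u) where
  /-- index set of the coordinates -/
  I : Type
  fin : Finite I
  /-- the coordinates -/
  enc : Γ → I → M

instance ctxUnit (M : Type u) : Ctx M PUnit.{u + 1} :=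
  ⟨Empty, inferInstance, fun _ e => e.elim⟩

instance ctxProd (M : Type u) (Γ : Type u) [c : Ctx M Γ] : Ctx M (Γ × M) :=
  ⟨Option c.I, by have := c.fin; infer_instance, fun p o => o.elim p.2 (c.enc p.1)⟩

instance (M Γ : Type u) [c : Ctx M Γ] : Finite (Ctx.I M Γ) := c.fin

section

variable {M : Type u} [Model M] {Γ : Type u} [Ctx M Γ]

/-- first-order definable (with parameters) predicate -/
class Fo (M : Type u) [Model M] {Γ : Type u} [Ctx M Γ] (P : Γ → Prop) : Prop where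
  out : ∃ D : Set (Ctx.I M Γ → M), Set.univ.Definable L D ∧ ∀ γ, P γ ↔ Ctx.enc γ ∈ D

/-- function with first-order definable graph -/
class Ft (t : Γ → M) : Prop where
  out : Fo M (fun p : Γ × M => p.2 = t p.1)

theorem Fo.congr {P Q : Γ → Prop} (h : Fo M P) (hPQ : ∀ γ, Q γ ↔ P γ) : Fo M Q := by
  obtain ⟨D, hD, h⟩ := h
  exact ⟨D, hD, fun γ => (hPQ γ).trans (h γ)⟩

theorem Fo.not' {P : Γ → Prop} (h : Fo M P) : Fo M (fun γ => ¬ P γ) := by
  obtain ⟨D, hD, h⟩ := h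
  exact ⟨Dᶜ, hD.compl, fun γ => not_congr (h γ)⟩

theorem Fo.and' {P Q : Γ → Prop} (h : Fo M P) (h' : Fo M Q) : Fo M (fun γ => P γ ∧ Q γ) := by
  obtain ⟨D, hD, h⟩ := h
  obtain ⟨D', hD', h'⟩ := h'
  exact ⟨D ∩ D', hD.inter hD', fun γ => and_congr (h γ) (h' γ)⟩

theorem Fo.or' {P Q : Γ → Prop} (h : Fo M P) (h' : Fo M Q) : Fo M (fun γ => P γ ∨ Q γ) := by
  obtain ⟨D, hD, h⟩ := h
  obtain ⟨D', hD', h'⟩ := h'
  exact ⟨D ∪ D', hD.union hD', fun γ => or_congr (h γ) (h' γ)⟩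

instance Fo.not {P : Γ → Prop} [h : Fo M P] : Fo M (fun γ => ¬ P γ) := h.not'

instance Fo.and {P Q : Γ → Prop} [h : Fo M P] [h' : Fo M Q] : Fo M (fun γ => P γ ∧ Q γ) :=
  h.and' h'

instance Fo.or {P Q : Γ → Prop} [h : Fo M P] [h' : Fo M Q] : Fo M (fun γ => P γ ∨ Q γ) :=
  h.or' h'

instance Fo.imp {P Q : Γ → Prop} [h : Fo M P] [h' : Fo M Q] : Fo M (fun γ => P γ → Q γ) :=
  (h.not'.or' h').congr fun γ => by tauto

instance Fo.iff {P Q : Γ → Prop} [h : Fo M P] [h' : Fo M Q] : Fo M (fun γ => P γ ↔ Q γ) :=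
  (Fo.and' (P := fun γ => P γ → Q γ) (Q := fun γ => Q γ → P γ) inferInstance inferInstance).congr
    fun γ => by tauto

instance (priority := high) Fo.const (p : Prop) : Fo M (fun _ : Γ => p) := by
  by_cases hp : p
  · exact ⟨Set.univ, by simp, fun γ => by simp [hp]⟩
  · exact ⟨∅, by simp, fun γ => by simp [hp]⟩

theorem Fo.ex' {P : Γ → M → Prop} (h : Fo M (fun p : Γ × M => P p.1 p.2)) :
    Fo M (fun γ => ∃ x, P γ x) := by
  obtain ⟨D, hD, h⟩ := h
  refine ⟨(fun g : Option (Ctx.I M Γ) → M => g ∘ some) '' D, ?_, fun γ => ?_⟩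
  · exact hD.image_comp (some : Ctx.I M Γ → Option (Ctx.I M Γ))
  · constructor
    · rintro ⟨x, hx⟩
      refine ⟨Ctx.enc (M := M) (γ, x), (h (γ, x)).1 hx, ?_⟩
      funext i
      rfl
    · rintro ⟨g, hg, hg'⟩
      refine ⟨g none, (h (γ, g none)).2 ?_⟩
      have : Ctx.enc (M := M) (γ, g none) = g := by
        funext o
        cases o with
        | none => rfl
        | some i => exact (congrFun hg' i).symm
      rw [this]
      exact hg

instance Fo.ex {P : Γ → M → Prop} [h : Fo M (fun p : Γ × M => P p.1 p.2)] :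
    Fo M (fun γ => ∃ x, P γ x) := Fo.ex' h

instance Fo.all {P : Γ → M → Prop} [h : Fo M (fun p : Γ × M => P p.1 p.2)] :
    Fo M (fun γ => ∀ x, P γ x) :=
  (Fo.ex' (P := fun γ x => ¬ P γ x) h.not').not'.congr fun γ => by
    push Not; rfl

/-! ### Pulling back along maps of index sets -/

/-- every coordinate of `f γ` is a coordinate of `γ` or a constant -/
def Rearr {Γ Δ : Type u} [Ctx M Γ] [Ctx M Δ] (f : Γ → Δ) : Prop :=
  ∃ e : Ctx.I M Δ → Ctx.I M Γ ⊕ M, ∀ γ i, Ctx.enc (f γ) i = Sum.elim (Ctx.enc γ) id (e i)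

theorem Fo.pull {Γ Δ : Type u} [Ctx M Γ] [Ctx M Δ] {P : Δ → Prop} (h : Fo M P) {f : Γ → Δ}
    (hf : Rearr (M := M) f) : Fo M (fun γ => P (f γ)) := by
  obtain ⟨D, hD, h⟩ := h
  obtain ⟨e, he⟩ := hf
  have hD' : Set.univ.Definable L
      (((fun w : Ctx.I M Γ ⊕ Ctx.I M Δ → M => w ∘ Sum.inr) ⁻¹' D) ∩
        ⋂ i : Ctx.I M Δ, {w : Ctx.I M Γ ⊕ Ctx.I M Δ → M |
          w (Sum.inr i) = Sum.elim (fun k => w (Sum.inl k)) id (e i)}) := by
    refine (hD.preimage_comp Sum.inr).inter ?_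
    refine Set.definable_iInter_of_finite fun i => ?_
    rcases e i with k | c
    · refine ⟨(FirstOrder.Language.Term.var (Sum.inr i)).equal
        (FirstOrder.Language.Term.var (Sum.inl k)), ?_⟩
      ext v; simp
    · refine ⟨(FirstOrder.Language.Term.var (Sum.inr i)).equal
        (L.con (⟨c, Set.mem_univ _⟩ : ↥(Set.univ : Set M))).term, ?_⟩
      ext v; simp
  refine ⟨_, hD'.image_comp (Sum.inl : Ctx.I M Γ → Ctx.I M Γ ⊕ Ctx.I M Δ), fun γ => ?_⟩
  rw [h (f γ)]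
  constructor
  · intro hp
    refine ⟨Sum.elim (Ctx.enc γ) (Ctx.enc (f γ)), ⟨hp, ?_⟩, ?_⟩
    · simp only [Set.mem_iInter]
      intro i
      change Ctx.enc (f γ) i = _
      rw [he γ i]
      rfl
    · funext i; rfl
  · rintro ⟨w, ⟨hw, hw'⟩, hw''⟩
    have : Ctx.enc (M := M) (f γ) = w ∘ Sum.inr := by
      funext i
      simp only [Set.mem_iInter] at hw'
      rw [he γ i, ← hw'']
      exact (hw' i).symm
    rw [this]
    exact hw

/-- `t` is a coordinate function -/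
def Coord (t : Γ → M) : Prop := ∃ i : Ctx.I M Γ, ∀ γ, t γ = Ctx.enc γ i

theorem Coord.snd : Coord (fun p : Γ × M => p.2) := ⟨none, fun _ => rfl⟩

theorem Coord.fst {t : Γ → M} (h : Coord t) : Coord (fun p : Γ × M => t p.1) := by
  obtain ⟨i, hi⟩ := h
  exact ⟨some i, fun p => hi p.1⟩

theorem Coord.eqFo {t s : Γ → M} (ht : Coord t) (hs : Coord s) : Fo M (fun γ => t γ = s γ) := by
  obtain ⟨i, hi⟩ := ht
  obtain ⟨j, hj⟩ := hs
  refine ⟨{v | v i = v j}, ?_, fun γ => by simp [hi, hj]⟩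
  refine ⟨(FirstOrder.Language.Term.var i).equal (FirstOrder.Language.Term.var j), ?_⟩
  ext v; simp

theorem Coord.memFo {t s : Γ → M} (ht : Coord t) (hs : Coord s) : Fo M (fun γ => t γ ∈ s γ) := by
  obtain ⟨i, hi⟩ := ht
  obtain ⟨j, hj⟩ := hs
  refine ⟨{v | v i ∈ v j}, ?_, fun γ => by simp [hi, hj]⟩
  have h2 : (∅ : Set M).Definable L {v : Fin 2 → M | v 0 ∈ v 1} := by
    rw [Set.empty_definable_iff]
    refine ⟨FirstOrder.Language.Relations.formula₂ (L := L) MemRel.mem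
      (FirstOrder.Language.Term.var 0) (FirstOrder.Language.Term.var 1), ?_⟩
    ext v
    simp only [Set.mem_ofPred_eq, FirstOrder.Language.Formula.realize_rel₂]
    rfl
  exact (h2.mono (Set.empty_subset _)).preimage_comp ![i, j]

theorem Coord.toFt {t : Γ → M} (h : Coord t) : Ft t := ⟨Coord.eqFo Coord.snd h.fst⟩

instance (priority := high) Ft.const (c : M) : Ft (fun _ : Γ => c) := by
  refine ⟨{v | v none = c}, ?_, fun γ => Iff.rfl⟩
  refine ⟨(FirstOrder.Language.Term.var none).equal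
    (L.con (⟨c, Set.mem_univ c⟩ : ↥(Set.univ : Set M))).term, ?_⟩
  ext v; simp

/-! ### Variables -/

instance Ft.v0 : Ft (fun p : Γ × M => p.2) := Coord.snd.toFt
instance Ft.v1 : Ft (fun p : (Γ × M) × M => p.1.2) := Coord.snd.fst.toFt
instance Ft.v2 : Ft (fun p : ((Γ × M) × M) × M => p.1.1.2) := Coord.snd.fst.fst.toFt
instance Ft.v3 : Ft (fun p : (((Γ × M) × M) × M) × M => p.1.1.1.2) :=
  Coord.snd.fst.fst.fst.toFt
instance Ft.v4 : Ft (fun p : ((((Γ × M) × M) × M) × M) × M => p.1.1.1.1.2) :=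
  Coord.snd.fst.fst.fst.fst.toFt
instance Ft.v5 : Ft (fun p : (((((Γ × M) × M) × M) × M) × M) × M => p.1.1.1.1.1.2) :=
  Coord.snd.fst.fst.fst.fst.fst.toFt
instance Ft.v6 : Ft (fun p : ((((((Γ × M) × M) × M) × M) × M) × M) × M => p.1.1.1.1.1.1.2) :=
  Coord.snd.fst.fst.fst.fst.fst.fst.toFt
instance Ft.v7 : Ft (fun p : (((((((Γ × M) × M) × M) × M) × M) × M) × M) × M =>
    p.1.1.1.1.1.1.1.2) :=
  Coord.snd.fst.fst.fst.fst.fst.fst.fst.toFt
instance Ft.v8 : Ft (fun p : ((((((((Γ × M) × M) × M) × M) × M) × M) × M) × M) × M =>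
    p.1.1.1.1.1.1.1.1.2) :=
  Coord.snd.fst.fst.fst.fst.fst.fst.fst.fst.toFt
instance Ft.v9 : Ft (fun p : (((((((((Γ × M) × M) × M) × M) × M) × M) × M) × M) × M) × M =>
    p.1.1.1.1.1.1.1.1.1.2) :=
  Coord.snd.fst.fst.fst.fst.fst.fst.fst.fst.fst.toFt

end

section

variable {M : Type u} [Model M] {Γ : Type u} [Ctx M Γ]

theorem rearr_fst_map {Γ Δ : Type u} [Ctx M Γ] [Ctx M Δ] {f : Γ → Δ} (hf : Rearr (M := M) f) :
    Rearr (M := M) (fun p : Γ × M => (f p.1, p.2)) := by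
  obtain ⟨e, he⟩ := hf
  refine ⟨fun o => o.elim (Sum.inl none) (fun i => (e i).map some id), fun p o => ?_⟩
  cases o with
  | none => rfl
  | some i =>
    have h1 := he p.1 i
    change Ctx.enc (f p.1) i = Sum.elim _ _ ((e i).map some id)
    rw [h1]
    rcases e i with k | c <;> rfl

theorem rearr_fst : Rearr (M := M) (fun p : Γ × M => p.1) :=
  ⟨fun i => Sum.inl (some i), fun _ _ => rfl⟩

theorem Rearr.comp {Γ Δ Θ : Type u} [Ctx M Γ] [Ctx M Δ] [Ctx M Θ] {f : Γ → Δ} {g : Δ → Θ}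
    (hg : Rearr (M := M) g) (hf : Rearr (M := M) f) : Rearr (M := M) (fun γ => g (f γ)) := by
  obtain ⟨e, he⟩ := hf
  obtain ⟨e', he'⟩ := hg
  refine ⟨fun i => Sum.elim (fun k => e k) Sum.inr (e' i), fun γ i => ?_⟩
  rw [he' (f γ) i]
  beta_reduce
  rcases e' i with k | c
  · exact he γ k
  · rfl

theorem rearr_const {Δ : Type u} [Ctx M Δ] (δ : Δ) : Rearr (M := M) (fun _ : Γ => δ) :=
  ⟨fun i => Sum.inr (Ctx.enc δ i), fun _ _ => rfl⟩

theorem Ft.fst' {t : Γ → M} (h : Ft t) : Ft (fun p : Γ × M => t p.1) :=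
  ⟨Fo.pull (M := M) (Γ := (Γ × M) × M) (Δ := Γ × M) h.out
    (f := fun p => (p.1.1, p.2)) (rearr_fst_map rearr_fst)⟩

theorem Fo.fst' {P : Γ → Prop} (h : Fo M P) : Fo M (fun p : Γ × M => P p.1) :=
  h.pull rearr_fst

/-- substitution of a definable function -/
theorem Fo.subst {P : Γ → M → Prop} (h : Fo M (fun p : Γ × M => P p.1 p.2)) {t : Γ → M}
    (ht : Ft t) : Fo M (fun γ => P γ (t γ)) :=
  (Fo.ex' (P := fun γ x => x = t γ ∧ P γ x) (Fo.and' ht.out h)).congr fun γ => by simp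

instance Fo.eq {t s : Γ → M} [ht : Ft t] [hs : Ft s] : Fo M (fun γ => t γ = s γ) :=
  Fo.subst (P := fun γ x => x = s γ) hs.out ht

instance Fo.ne {t s : Γ → M} [ht : Ft t] [hs : Ft s] : Fo M (fun γ => t γ ≠ s γ) :=
  Fo.not (P := fun γ => t γ = s γ)

instance Fo.mem {t s : Γ → M} [ht : Ft t] [hs : Ft s] : Fo M (fun γ => t γ ∈ s γ) := by
  refine Fo.subst (P := fun γ x => x ∈ s γ) ?_ ht
  refine Fo.subst (P := fun (p : Γ × M) y => p.2 ∈ y) ?_ hs.fst'
  exact Coord.memFo (Coord.fst Coord.snd) Coord.snd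

/-! ### Definable functions and relations of one, two, three, four variables -/

/-- definable unary relation -/
class Fo₁ (P : M → Prop) : Prop where
  out : Fo M (fun p : PUnit.{u + 1} × M => P p.2)

/-- definable binary relation -/
class Fo₂ (P : M → M → Prop) : Prop where
  out : Fo M (fun p : (PUnit.{u + 1} × M) × M => P p.1.2 p.2)

/-- definable ternary relation -/
class Fo₃ (P : M → M → M → Prop) : Prop where
  out : Fo M (fun p : ((PUnit.{u + 1} × M) × M) × M => P p.1.1.2 p.1.2 p.2)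

/-- definable relation of four variables -/
class Fo₄ (P : M → M → M → M → Prop) : Prop where
  out : Fo M (fun p : (((PUnit.{u + 1} × M) × M) × M) × M => P p.1.1.1.2 p.1.1.2 p.1.2 p.2)

instance Fo₁.mk' {P : M → Prop} [h : Fo M (fun p : PUnit.{u + 1} × M => P p.2)] : Fo₁ P := ⟨h⟩
instance Fo₂.mk' {P : M → M → Prop} [h : Fo M (fun p : (PUnit.{u + 1} × M) × M => P p.1.2 p.2)] :
    Fo₂ P := ⟨h⟩
instance Fo₃.mk' {P : M → M → M → Prop}
    [h : Fo M (fun p : ((PUnit.{u + 1} × M) × M) × M => P p.1.1.2 p.1.2 p.2)] :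
    Fo₃ P := ⟨h⟩
instance Fo₄.mk' {P : M → M → M → M → Prop}
    [h : Fo M (fun p : (((PUnit.{u + 1} × M) × M) × M) × M => P p.1.1.1.2 p.1.1.2 p.1.2 p.2)] :
    Fo₄ P := ⟨h⟩

/-- definable unary function -/
class Ft₁ (F : M → M) : Prop where
  out : Ft (fun p : PUnit.{u + 1} × M => F p.2)

/-- definable binary function -/
class Ft₂ (F : M → M → M) : Prop where
  out : Ft (fun p : (PUnit.{u + 1} × M) × M => F p.1.2 p.2)

/-- definable ternary function -/
class Ft₃ (F : M → M → M → M) : Prop where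
  out : Ft (fun p : ((PUnit.{u + 1} × M) × M) × M => F p.1.1.2 p.1.2 p.2)

/-- definable function of four variables -/
class Ft₄ (F : M → M → M → M → M) : Prop where
  out : Ft (fun p : (((PUnit.{u + 1} × M) × M) × M) × M => F p.1.1.1.2 p.1.1.2 p.1.2 p.2)

instance Ft₁.mk' {F : M → M} [h : Ft (fun p : PUnit.{u + 1} × M => F p.2)] : Ft₁ F := ⟨h⟩
instance Ft₂.mk' {F : M → M → M} [h : Ft (fun p : (PUnit.{u + 1} × M) × M => F p.1.2 p.2)] :
    Ft₂ F := ⟨h⟩
instance Ft₃.mk' {F : M → M → M → M}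
    [h : Ft (fun p : ((PUnit.{u + 1} × M) × M) × M => F p.1.1.2 p.1.2 p.2)] :
    Ft₃ F := ⟨h⟩
instance Ft₄.mk' {F : M → M → M → M → M}
    [h : Ft (fun p : (((PUnit.{u + 1} × M) × M) × M) × M => F p.1.1.1.2 p.1.1.2 p.1.2 p.2)] :
    Ft₄ F := ⟨h⟩

theorem Fo₁.comp {P : M → Prop} (h : Fo₁ P) {Γ : Type u} [Ctx M Γ] {t : Γ → M} (ht : Ft t) :
    Fo M (fun γ => P (t γ)) := by
  refine Fo.subst (P := fun γ x => P x) ?_ ht
  refine h.out.pull (f := fun q : Γ × M => (PUnit.unit, q.2)) ⟨fun _ => Sum.inl none, fun γ o => ?_⟩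
  rcases o with _ | o
  · rfl
  · exact o.elim

theorem Fo₂.comp {P : M → M → Prop} (h : Fo₂ P) {Γ : Type u} [Ctx M Γ] {t s : Γ → M}
    (ht : Ft t) (hs : Ft s) : Fo M (fun γ => P (t γ) (s γ)) := by
  refine Fo.subst (P := fun γ x => P x (s γ)) ?_ ht
  refine Fo.subst (P := fun (p : Γ × M) y => P p.2 y) ?_ hs.fst'
  refine h.out.pull (f := fun q : (Γ × M) × M => ((PUnit.unit, q.1.2), q.2))
    ⟨fun o => Sum.inl (o.elim none (fun _ => some none)), fun γ o => ?_⟩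
  rcases o with _ | _ | o
  · rfl
  · rfl
  · exact o.elim

theorem Fo₃.comp {P : M → M → M → Prop} (h : Fo₃ P) {Γ : Type u} [Ctx M Γ] {t s r : Γ → M}
    (ht : Ft t) (hs : Ft s) (hr : Ft r) : Fo M (fun γ => P (t γ) (s γ) (r γ)) := by
  refine Fo.subst (P := fun γ x => P x (s γ) (r γ)) ?_ ht
  refine Fo.subst (P := fun (p : Γ × M) y => P p.2 y (r p.1)) ?_ hs.fst'
  refine Fo.subst (P := fun (p : (Γ × M) × M) y => P p.1.2 p.2 y) ?_ hr.fst'.fst'
  refine h.out.pull (f := fun q : ((Γ × M) × M) × M => (((PUnit.unit, q.1.1.2), q.1.2), q.2))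
    ⟨fun o => Sum.inl (o.elim none (fun o' => o'.elim (some none) (fun _ => some (some none)))),
      fun γ o => ?_⟩
  rcases o with _ | _ | _ | o
  · rfl
  · rfl
  · rfl
  · exact o.elim

theorem Fo₄.comp {P : M → M → M → M → Prop} (h : Fo₄ P) {Γ : Type u} [Ctx M Γ]
    {t s r q : Γ → M} (ht : Ft t) (hs : Ft s) (hr : Ft r) (hq : Ft q) :
    Fo M (fun γ => P (t γ) (s γ) (r γ) (q γ)) := by
  refine Fo.subst (P := fun γ x => P x (s γ) (r γ) (q γ)) ?_ ht
  refine Fo.subst (P := fun (p : Γ × M) y => P p.2 y (r p.1) (q p.1)) ?_ hs.fst'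
  refine Fo.subst (P := fun (p : (Γ × M) × M) y => P p.1.2 p.2 y (q p.1.1)) ?_ hr.fst'.fst'
  refine Fo.subst (P := fun (p : ((Γ × M) × M) × M) y => P p.1.1.2 p.1.2 p.2 y) ?_
    hq.fst'.fst'.fst'
  refine h.out.pull (f := fun q : (((Γ × M) × M) × M) × M =>
    ((((PUnit.unit, q.1.1.1.2), q.1.1.2), q.1.2), q.2))
    ⟨fun o => Sum.inl (o.elim none (fun o' => o'.elim (some none)
      (fun o'' => o''.elim (some (some none)) (fun _ => some (some (some none)))))),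
      fun γ o => ?_⟩
  rcases o with _ | _ | _ | _ | o
  · rfl
  · rfl
  · rfl
  · rfl
  · exact o.elim

theorem Ft₁.comp {F : M → M} (h : Ft₁ F) {Γ : Type u} [Ctx M Γ] {t : Γ → M} (ht : Ft t) :
    Ft (fun γ => F (t γ)) :=
  ⟨Fo₂.comp (P := fun a b => b = F a) ⟨h.out.out⟩ ht.fst' Ft.v0⟩

theorem Ft₂.comp {F : M → M → M} (h : Ft₂ F) {Γ : Type u} [Ctx M Γ] {t s : Γ → M} (ht : Ft t)
    (hs : Ft s) : Ft (fun γ => F (t γ) (s γ)) :=
  ⟨Fo₃.comp (P := fun a b c => c = F a b) ⟨h.out.out⟩ ht.fst' hs.fst' Ft.v0⟩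

theorem Ft₃.comp {F : M → M → M → M} (h : Ft₃ F) {Γ : Type u} [Ctx M Γ] {t s r : Γ → M}
    (ht : Ft t) (hs : Ft s) (hr : Ft r) : Ft (fun γ => F (t γ) (s γ) (r γ)) :=
  ⟨Fo₄.comp (P := fun a b c d => d = F a b c) ⟨h.out.out⟩ ht.fst' hs.fst' hr.fst' Ft.v0⟩

theorem Ft₄.comp {F : M → M → M → M → M} (h : Ft₄ F) {Γ : Type u} [Ctx M Γ] {t s r q : Γ → M}
    (ht : Ft t) (hs : Ft s) (hr : Ft r) (hq : Ft q) :
    Ft (fun γ => F (t γ) (s γ) (r γ) (q γ)) := by
  refine ⟨?_⟩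
  refine Fo.subst (P := fun (p : Γ × M) x => p.2 = F x (s p.1) (r p.1) (q p.1)) ?_ ht.fst'
  refine Fo.subst (P := fun (p : (Γ × M) × M) y => p.1.2 = F p.2 y (r p.1.1) (q p.1.1)) ?_
    hs.fst'.fst'
  refine Fo.subst (P := fun (p : ((Γ × M) × M) × M) y => p.1.1.2 = F p.1.2 p.2 y (q p.1.1.1)) ?_
    hr.fst'.fst'.fst'
  refine Fo.subst (P := fun (p : (((Γ × M) × M) × M) × M) y =>
    p.1.1.1.2 = F p.1.1.2 p.1.2 p.2 y) ?_ hq.fst'.fst'.fst'.fst'
  refine h.out.out.pull (f := fun q : ((((Γ × M) × M) × M) × M) × M =>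
    (((((PUnit.unit, q.1.1.1.2), q.1.1.2), q.1.2), q.2), q.1.1.1.1.2))
    ⟨fun o => Sum.inl (o.elim (some (some (some (some none)))) (fun o => o.elim none
      (fun o => o.elim (some none) (fun o => o.elim (some (some none))
      (fun _ => some (some (some none))))))),
      fun γ o => ?_⟩
  rcases o with _ | _ | _ | _ | _ | o
  · rfl
  · rfl
  · rfl
  · rfl
  · rfl
  · exact o.elim

instance (priority := low) Ft₁.inst {F : M → M} [h : Ft₁ F] {t : Γ → M} [ht : Ft t] :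
    Ft (fun γ => F (t γ)) := h.comp ht

instance (priority := low) Ft₂.inst {F : M → M → M} [h : Ft₂ F] {t s : Γ → M} [ht : Ft t]
    [hs : Ft s] : Ft (fun γ => F (t γ) (s γ)) := h.comp ht hs

instance (priority := low) Ft₃.inst {F : M → M → M → M} [h : Ft₃ F] {t s r : Γ → M} [ht : Ft t]
    [hs : Ft s] [hr : Ft r] : Ft (fun γ => F (t γ) (s γ) (r γ)) := h.comp ht hs hr

instance (priority := low) Ft₄.inst {F : M → M → M → M → M} [h : Ft₄ F] {t s r q : Γ → M}
    [ht : Ft t] [hs : Ft s] [hr : Ft r] [hq : Ft q] :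
    Ft (fun γ => F (t γ) (s γ) (r γ) (q γ)) := h.comp ht hs hr hq

instance (priority := low) Fo₁.inst {F : M → Prop} [h : Fo₁ F] {t : Γ → M} [ht : Ft t] :
    Fo M (fun γ => F (t γ)) := h.comp ht

instance (priority := low) Fo₂.inst {F : M → M → Prop} [h : Fo₂ F] {t s : Γ → M} [ht : Ft t]
    [hs : Ft s] : Fo M (fun γ => F (t γ) (s γ)) := h.comp ht hs

instance (priority := low) Fo₃.inst {F : M → M → M → Prop} [h : Fo₃ F] {t s r : Γ → M}
    [ht : Ft t] [hs : Ft s] [hr : Ft r] : Fo M (fun γ => F (t γ) (s γ) (r γ)) := h.comp ht hs hr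

instance (priority := low) Fo₄.inst {F : M → M → M → M → Prop} [h : Fo₄ F] {t s r q : Γ → M}
    [ht : Ft t] [hs : Ft s] [hr : Ft r] [hq : Ft q] :
    Fo M (fun γ => F (t γ) (s γ) (r γ) (q γ)) := h.comp ht hs hr hq

theorem ext' {a b : M} (h : ∀ z, z ∈ a ↔ z ∈ b) : a = b :=
  (Model.zf (M := M)).extensionality a b h

/-- definability of a term from definability of membership in it -/
theorem Ft.of_mem {t : Γ → M} (h : Fo M (fun p : Γ × M => p.2 ∈ t p.1)) : Ft t := by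
  have h1 : Fo M (fun q : (Γ × M) × M => q.2 ∈ t q.1.1) :=
    h.pull (f := fun q : (Γ × M) × M => (q.1.1, q.2)) (rearr_fst_map rearr_fst)
  refine ⟨(Fo.all (P := fun (p : Γ × M) z => z ∈ p.2 ↔ z ∈ t p.1)).congr ?_⟩
  intro p
  constructor
  · intro hp z; rw [hp]
  · intro hp; exact ext' hp

theorem Ft.congr {t s : Γ → M} (h : Ft t) (e : ∀ γ, s γ = t γ) : Ft s :=
  ⟨Fo.congr (M := M) h.out fun p => by rw [e]⟩

instance Ft.ite {P : Γ → Prop} {t s : Γ → M} {dec : ∀ γ, Decidable (P γ)} [h : Fo M P]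
    [ht : Ft t] [hs : Ft s] : Ft (fun γ => if P γ then t γ else s γ) := by
  have h1 := h.fst'
  have h2 := ht.out
  have h3 := hs.out
  refine ⟨Fo.congr (P := fun p : Γ × M => (P p.1 → p.2 = t p.1) ∧ (¬ P p.1 → p.2 = s p.1))
    inferInstance fun p => ?_⟩
  by_cases hp : P p.1 <;> simp [hp]

/-- fixing all coordinates but the last -/
theorem Fo.section {P : Γ → M → Prop} (h : Fo M (fun p : Γ × M => P p.1 p.2)) (γ : Γ) :
    Fo₁ (P γ) :=
  ⟨h.pull (f := fun q : PUnit.{u + 1} × M => (γ, q.2))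
    (rearr_fst_map (f := fun _ : PUnit.{u + 1} => γ) (rearr_const γ))⟩

theorem Ft.section {t : Γ → M → M} (h : Ft (fun p : Γ × M => t p.1 p.2)) (γ : Γ) :
    Ft₁ (t γ) :=
  ⟨⟨h.out.pull (f := fun q : (PUnit.{u + 1} × M) × M => ((γ, q.1.2), q.2))
    (rearr_fst_map (f := fun q : PUnit.{u + 1} × M => (γ, q.2))
    (rearr_fst_map (f := fun _ : PUnit.{u + 1} => γ) (rearr_const γ)))⟩⟩

end

end Pool.Agent.ZF
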