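import Mathlib
import Pool.Agent.ZF.Defin

/-!
# Operations in a model of `ZF`
-/

universe u

namespace Pool.Agent.ZF

section

variable {M : Type u} [Model M] {Γ : Type u} [Ctx M Γ]

instance (M : Type u) [Model M] : Nonempty M := (Model.zf (M := M)).nonempty

/-- the set of all `z` with `P z`, if it exists -/
noncomputable def theSet (P : M → Prop) : M := Classical.epsilon (fun b => ∀ z, z ∈ b ↔ P z)

theorem mem_theSet {P : M → Prop} (h : ∃ b : M, ∀ z, z ∈ b ↔ P z) {z : M} :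
    z ∈ theSet P ↔ P z := Classical.epsilon_spec h z

theorem Ft.theSet {P : Γ → M → Prop} (h : ∀ γ, ∃ b : M, ∀ z, z ∈ b ↔ P γ z)
    (hP : Fo M (fun p : Γ × M => P p.1 p.2)) : Ft (fun γ => theSet (P γ)) :=
  Ft.of_mem (hP.congr fun p => mem_theSet (h p.1))

/-! ### Empty set, pairs, unions -/

theorem exists_empty : ∃ e : M, ∀ z, z ∈ e ↔ False := by
  obtain ⟨x, ⟨e, -, he⟩, -⟩ := (Model.zf (M := M)).infinity
  exact ⟨e, fun z => ⟨he z, False.elim⟩⟩

noncomputable instance : EmptyCollection M := ⟨theSet (fun _ => False)⟩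

@[simp] theorem notMem_empty (z : M) : z ∉ (∅ : M) := fun h => (mem_theSet exists_empty).1 h

/-- unordered pair -/
noncomputable def upair (x y : M) : M := theSet (fun z => z = x ∨ z = y)

@[simp] theorem mem_upair {x y z : M} : z ∈ upair x y ↔ z = x ∨ z = y :=
  mem_theSet ((Model.zf (M := M)).pairing x y)

noncomputable instance : Singleton M M := ⟨fun x => upair x x⟩

@[simp] theorem mem_sing {x z : M} : z ∈ ({x} : M) ↔ z = x := by
  change z ∈ upair x x ↔ _
  simp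

/-- union of all elements -/
noncomputable def sUn (x : M) : M := theSet (fun z => ∃ y, y ∈ x ∧ z ∈ y)

@[simp] theorem mem_sUn {x z : M} : z ∈ sUn x ↔ ∃ y, y ∈ x ∧ z ∈ y := by
  refine mem_theSet ?_
  obtain ⟨u, hu⟩ := (Model.zf (M := M)).union x
  exact ⟨u, fun z => (hu z).trans ⟨fun ⟨y, h1, h2⟩ => ⟨y, h2, h1⟩, fun ⟨y, h1, h2⟩ => ⟨y, h2, h1⟩⟩⟩

noncomputable instance : Union M := ⟨fun x y => sUn (upair x y)⟩

@[simp] theorem mem_un {x y z : M} : z ∈ x ∪ y ↔ z ∈ x ∨ z ∈ y := by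
  change z ∈ sUn (upair x y) ↔ _
  simp

noncomputable instance : Insert M M := ⟨fun a x => {a} ∪ x⟩

@[simp] theorem mem_ins {a x z : M} : z ∈ (insert a x : M) ↔ z = a ∨ z ∈ x := by
  change z ∈ ({a} : M) ∪ x ↔ _
  simp

instance : HasSubset M := ⟨fun x y => ∀ z, z ∈ x → z ∈ y⟩

theorem sub_def {x y : M} : x ⊆ y ↔ ∀ z, z ∈ x → z ∈ y := Iff.rfl

theorem sub_antisymm {x y : M} (h : x ⊆ y) (h' : y ⊆ x) : x = y :=
  ext' fun z => ⟨h z, h' z⟩

theorem sub_refl' (x : M) : x ⊆ x := fun _ h => h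

theorem sub_trans' {x y z : M} (h : x ⊆ y) (h' : y ⊆ z) : x ⊆ z := fun w hw => h' w (h w hw)

theorem eq_empty_iff {x : M} : x = ∅ ↔ ∀ z, z ∉ x := by
  constructor
  · rintro rfl; simp
  · intro h; exact ext' fun z => by simp [h z]

theorem ne_empty_iff {x : M} : x ≠ ∅ ↔ ∃ z, z ∈ x := by
  rw [Ne, eq_empty_iff]; push Not; rfl

@[simp] theorem empty_sub (x : M) : (∅ : M) ⊆ x := fun z hz => absurd hz (notMem_empty z)

/-- power set -/
noncomputable def pow (x : M) : M := theSet (fun z => z ⊆ x)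

@[simp] theorem mem_pow {x z : M} : z ∈ pow x ↔ z ⊆ x :=
  mem_theSet ((Model.zf (M := M)).power x)

/-! ### Separation -/

/-- `{z ∈ a : P z}` -/
noncomputable def sep (a : M) (P : M → Prop) : M := theSet (fun z => z ∈ a ∧ P z)

theorem exists_sep (a : M) (P : M → Prop) [h : Fo₁ P] : ∃ b : M, ∀ z, z ∈ b ↔ z ∈ a ∧ P z := by
  obtain ⟨⟨D, hD, h⟩⟩ := h
  have key : {x : Fin 1 → M | x 0 ∈ {z | P z}} =
      (fun v : Fin 1 → M => v ∘ fun _ : Option Empty => (0 : Fin 1)) ⁻¹' D := by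
    ext v
    refine (h (PUnit.unit, v 0)).trans ?_
    have h3 : Ctx.enc (M := M) ((PUnit.unit, v 0) : PUnit.{u + 1} × M) =
        (v ∘ fun _ : Option Empty => (0 : Fin 1)) := by
      funext o
      rcases o with _ | o
      · rfl
      · exact o.elim
    rw [h3]
    rfl
  have h0 : Definable₁ (Model.E (M := M)) {z | P z} := by
    unfold Definable₁ Set.Definable₁
    rw [key]
    exact hD.preimage_comp (fun _ : Option Empty => (0 : Fin 1))
  exact (Model.zf (M := M)).separation {z | P z} h0 a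

@[simp] theorem mem_sep {a z : M} {P : M → Prop} [Fo₁ P] : z ∈ sep a P ↔ z ∈ a ∧ P z :=
  mem_theSet (exists_sep a P)

noncomputable instance : Inter M := ⟨fun x y => sep x (fun z => z ∈ y)⟩

@[simp] theorem mem_int {x y z : M} : z ∈ x ∩ y ↔ z ∈ x ∧ z ∈ y := by
  change z ∈ sep x (fun z => z ∈ y) ↔ _
  simp

noncomputable instance : SDiff M := ⟨fun x y => sep x (fun z => z ∉ y)⟩

@[simp] theorem mem_dif {x y z : M} : z ∈ x \ y ↔ z ∈ x ∧ z ∉ y := by
  change z ∈ sep x (fun z => z ∉ y) ↔ _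
  simp

/-! ### Replacement -/

/-- `{t x : x ∈ a}` -/
noncomputable def img (t : M → M) (a : M) : M := theSet (fun z => ∃ x, x ∈ a ∧ z = t x)

theorem exists_img (a : M) (t : M → M) [h : Ft₁ t] : ∃ b : M, ∀ z, z ∈ b ↔ ∃ x, x ∈ a ∧ z = t x := by
  obtain ⟨⟨⟨D, hD, h⟩⟩⟩ := h
  have key : {x : Fin 2 → M | (x 0, x 1) ∈ {p : M × M | p.2 = t p.1}} =
      (fun v : Fin 2 → M => v ∘ fun o : Option (Option Empty) =>
        o.elim (1 : Fin 2) (fun _ => 0)) ⁻¹' D := by
    ext v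
    refine (h ((PUnit.unit, v 0), v 1)).trans ?_
    have h3 : Ctx.enc (M := M) (((PUnit.unit, v 0), v 1) : (PUnit.{u + 1} × M) × M) =
        (v ∘ fun o : Option (Option Empty) => o.elim (1 : Fin 2) (fun _ => 0)) := by
      funext o
      rcases o with _ | _ | o
      · rfl
      · rfl
      · exact o.elim
    rw [h3]
    rfl
  have h0 : Definable₂ (Model.E (M := M)) {p : M × M | p.2 = t p.1} := by
    unfold Definable₂ Set.Definable₂
    rw [key]
    exact hD.preimage_comp (fun o : Option (Option Empty) => o.elim (1 : Fin 2) (fun _ => 0))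
  obtain ⟨b, hb⟩ := (Model.zf (M := M)).replacement {p | p.2 = t p.1} h0 a
    (fun x _ => ⟨t x, rfl, fun y hy => hy⟩)
  exact ⟨b, fun z => hb z⟩

@[simp] theorem mem_img {a z : M} {t : M → M} [Ft₁ t] : z ∈ img t a ↔ ∃ x, x ∈ a ∧ z = t x :=
  mem_theSet (exists_img a t)

/-! ### Definability of the operations -/

instance Ft.upair {t s : Γ → M} [ht : Ft t] [hs : Ft s] : Ft (fun γ => upair (t γ) (s γ)) :=
  Ft₂.comp (F := Pool.Agent.ZF.upair) ⟨Ft.theSet (P := fun (p : (PUnit.{u + 1} × M) × M) z =>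
    z = p.1.2 ∨ z = p.2) (fun p => (Model.zf (M := M)).pairing p.1.2 p.2) inferInstance⟩ ht hs

instance Ft.sing {t : Γ → M} [ht : Ft t] : Ft (fun γ => ({t γ} : M)) :=
  Ft.upair (t := t) (s := t)

instance Ft.sUn {t : Γ → M} [ht : Ft t] : Ft (fun γ => sUn (t γ)) :=
  Ft₁.comp (F := Pool.Agent.ZF.sUn) ⟨Ft.of_mem (Fo.congr
    (P := fun p : (PUnit.{u + 1} × M) × M => ∃ y, y ∈ p.1.2 ∧ p.2 ∈ y) inferInstance
    fun _ => mem_sUn)⟩ ht

instance Ft.un {t s : Γ → M} [ht : Ft t] [hs : Ft s] : Ft (fun γ => t γ ∪ s γ) :=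
  Ft.sUn (t := fun γ => Pool.Agent.ZF.upair (t γ) (s γ))

instance Ft.ins {t s : Γ → M} [ht : Ft t] [hs : Ft s] : Ft (fun γ => (insert (t γ) (s γ) : M)) :=
  Ft.un (t := fun γ => ({t γ} : M)) (s := s)

instance Fo.sub {t s : Γ → M} [ht : Ft t] [hs : Ft s] : Fo M (fun γ => t γ ⊆ s γ) :=
  Fo₂.comp (P := fun x y : M => x ⊆ y) ⟨Fo.congr
    (P := fun p : (PUnit.{u + 1} × M) × M => ∀ z, z ∈ p.1.2 → z ∈ p.2) inferInstance
    fun p => Iff.rfl⟩ ht hs

instance Ft.pow {t : Γ → M} [ht : Ft t] : Ft (fun γ => pow (t γ)) :=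
  Ft₁.comp (F := Pool.Agent.ZF.pow) ⟨Ft.of_mem (Fo.congr
    (P := fun p : (PUnit.{u + 1} × M) × M => p.2 ⊆ p.1.2) inferInstance
    fun _ => mem_pow)⟩ ht

instance Ft.sep {t : Γ → M} {P : Γ → M → Prop} [ht : Ft t]
    [hP : Fo M (fun p : Γ × M => P p.1 p.2)] : Ft (fun γ => sep (t γ) (P γ)) := by
  have := ht.fst'
  refine Ft.of_mem (Fo.congr (P := fun p : Γ × M => p.2 ∈ t p.1 ∧ P p.1 p.2) inferInstance
    fun p => ?_)
  have := hP.section p.1
  exact mem_sep

instance Ft.int {t s : Γ → M} [ht : Ft t] [hs : Ft s] : Ft (fun γ => t γ ∩ s γ) := by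
  have := hs.fst'
  exact Ft.sep (t := t) (P := fun γ z => z ∈ s γ)

instance Ft.dif {t s : Γ → M} [ht : Ft t] [hs : Ft s] : Ft (fun γ => t γ \ s γ) := by
  have := hs.fst'
  exact Ft.sep (t := t) (P := fun γ z => z ∉ s γ)

instance Ft.img {t : Γ → M → M} {s : Γ → M} [ht : Ft (fun p : Γ × M => t p.1 p.2)]
    [hs : Ft s] : Ft (fun γ => img (t γ) (s γ)) := by
  have h1 : Ft (fun p : (Γ × M) × M => s p.1.1) := hs.fst'.fst'
  have h2 : Ft (fun p : (Γ × M) × M => t p.1.1 p.2) :=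
    ⟨ht.out.pull (f := fun q : ((Γ × M) × M) × M => ((q.1.1.1, q.1.2), q.2))
      (rearr_fst_map (rearr_fst_map rearr_fst))⟩
  refine Ft.of_mem (Fo.congr (P := fun p : Γ × M => ∃ x, x ∈ s p.1 ∧ p.2 = t p.1 x) inferInstance
    fun p => ?_)
  have := ht.section p.1
  exact mem_img

/-! ### Ordered pairs -/

/-- ordered pair -/
noncomputable def pr (x y : M) : M := {{x}, {x, y}}

instance : Ft₂ (pr : M → M → M) := by unfold pr; infer_instance

theorem sing_inj {x y : M} (h : ({x} : M) = {y}) : x = y := by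
  have : x ∈ ({y} : M) := by rw [← h]; simp
  simpa using this

theorem pr_inj {x y x' y' : M} : pr x y = pr x' y' ↔ x = x' ∧ y = y' := by
  constructor
  · intro h
    have key : ∀ z : M, z ∈ pr x y ↔ z ∈ pr x' y' := fun z => by rw [h]
    have hx : x = x' := by
      have h1 : ({x} : M) ∈ pr x y := by simp [pr]
      rw [key] at h1
      simp only [pr, mem_ins, mem_sing] at h1
      rcases h1 with h1 | h1
      · exact sing_inj h1
      · have h2 : x' ∈ ({x} : M) := by rw [h1]; simp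
        simp only [mem_sing] at h2
        exact h2.symm
    subst hx
    refine ⟨rfl, ?_⟩
    have h1 : ({x, y} : M) ∈ pr x y := by simp [pr]
    have h2 : ({x, y'} : M) ∈ pr x y' := by simp [pr]
    rw [key] at h1
    rw [← key] at h2
    simp only [pr, mem_ins, mem_sing] at h1 h2
    have e1 : y = x ∨ y = y' := by
      rcases h1 with h1 | h1
      · have h3 : y ∈ ({x} : M) := by rw [← h1]; simp
        simp only [mem_sing] at h3
        exact Or.inl h3
      · have h3 : y ∈ ({x, y'} : M) := by rw [← h1]; simp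
        simpa using h3
    have e2 : y' = x ∨ y' = y := by
      rcases h2 with h2 | h2
      · have h3 : y' ∈ ({x} : M) := by rw [← h2]; simp
        simp only [mem_sing] at h3
        exact Or.inl h3
      · have h3 : y' ∈ ({x, y} : M) := by rw [← h2]; simp
        simpa using h3
    rcases e1 with e1 | e1
    · rcases e2 with e2 | e2
      · rw [e1, e2]
      · exact e2.symm
    · exact e1
  · rintro ⟨rfl, rfl⟩; rfl

/-- first component -/
noncomputable def fst (p : M) : M := sUn (sep (sUn p) (fun x => ∃ y, p = pr x y))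

instance : Ft₁ (fst : M → M) := by unfold fst; infer_instance

@[simp] theorem fst_pr (x y : M) : fst (pr x y) = x := by
  refine ext' fun z => ?_
  simp only [fst, mem_sUn, mem_sep, pr_inj]
  constructor
  · rintro ⟨w, ⟨_, y', h1, _⟩, hz⟩
    rw [h1]; exact hz
  · intro hz
    refine ⟨x, ⟨⟨{x}, by simp [pr], by simp⟩, y, rfl, rfl⟩, hz⟩

/-- second component -/
noncomputable def snd (p : M) : M := sUn (sep (sUn p) (fun y => ∃ x, p = pr x y))

instance : Ft₁ (snd : M → M) := by unfold snd; infer_instance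

@[simp] theorem snd_pr (x y : M) : snd (pr x y) = y := by
  refine ext' fun z => ?_
  simp only [snd, mem_sUn, mem_sep, pr_inj]
  constructor
  · rintro ⟨w, ⟨_, x', _, h1⟩, hz⟩
    rw [h1]; exact hz
  · intro hz
    refine ⟨y, ⟨⟨{x, y}, by simp [pr], by simp⟩, x, rfl, rfl⟩, hz⟩

/-- Cartesian product -/
noncomputable def prod (a b : M) : M := sUn (img (fun x => img (fun y => pr x y) b) a)

instance : Ft₂ (prod : M → M → M) := by unfold prod; infer_instance

theorem mem_prod {a b z : M} : z ∈ prod a b ↔ ∃ x, x ∈ a ∧ ∃ y, y ∈ b ∧ z = pr x y := by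
  simp only [prod, mem_sUn, mem_img]
  constructor
  · rintro ⟨_, ⟨x, hx, rfl⟩, hz⟩
    rw [mem_img] at hz
    exact ⟨x, hx, hz⟩
  · rintro ⟨x, hx, hz⟩
    exact ⟨_, ⟨x, hx, rfl⟩, mem_img.2 hz⟩

@[simp] theorem pr_mem_prod {a b x y : M} : pr x y ∈ prod a b ↔ x ∈ a ∧ y ∈ b := by
  rw [mem_prod]
  constructor
  · rintro ⟨x', hx, y', hy, h⟩
    obtain ⟨rfl, rfl⟩ := pr_inj.1 h
    exact ⟨hx, hy⟩
  · rintro ⟨hx, hy⟩
    exact ⟨x, hx, y, hy, rfl⟩

/-! ### Functions -/

theorem fst_mem_sUn {f x y : M} (h : pr x y ∈ f) : x ∈ sUn (sUn f) := by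
  simp only [mem_sUn]
  exact ⟨{x}, ⟨_, h, by simp [pr]⟩, by simp⟩

theorem snd_mem_sUn {f x y : M} (h : pr x y ∈ f) : y ∈ sUn (sUn f) := by
  simp only [mem_sUn]
  exact ⟨{x, y}, ⟨_, h, by simp [pr]⟩, by simp⟩

/-- the value of the function `f` at `x` -/
noncomputable def app (f x : M) : M := sUn (sep (sUn (sUn f)) (fun y => pr x y ∈ f))

instance : Ft₂ (app : M → M → M) := by unfold app; infer_instance

/-- the domain of the relation `f` -/
noncomputable def dom (f : M) : M := sep (sUn (sUn f)) (fun x => ∃ y, pr x y ∈ f)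

instance : Ft₁ (dom : M → M) := by unfold dom; infer_instance

@[simp] theorem mem_dom {f x : M} : x ∈ dom f ↔ ∃ y, pr x y ∈ f := by
  simp only [dom, mem_sep]
  constructor
  · exact fun h => h.2
  · rintro ⟨y, h⟩
    exact ⟨fst_mem_sUn h, y, h⟩

/-- the range of the relation `f` -/
noncomputable def ran (f : M) : M := sep (sUn (sUn f)) (fun y => ∃ x, pr x y ∈ f)

instance : Ft₁ (ran : M → M) := by unfold ran; infer_instance

@[simp] theorem mem_ran {f y : M} : y ∈ ran f ↔ ∃ x, pr x y ∈ f := by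
  simp only [ran, mem_sep]
  constructor
  · exact fun h => h.2
  · rintro ⟨x, h⟩
    exact ⟨snd_mem_sUn h, x, h⟩

/-- `f` is a function: a set of pairs with no two pairs with the same first component -/
def IsFn (f : M) : Prop :=
  (∀ p, p ∈ f → ∃ x y, p = pr x y) ∧ ∀ x y y', pr x y ∈ f → pr x y' ∈ f → y = y'

instance : Fo₁ (IsFn : M → Prop) := by unfold IsFn; infer_instance

theorem IsFn.app_eq {f x y : M} (hf : IsFn f) (h : pr x y ∈ f) : app f x = y := by
  refine ext' fun z => ?_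
  simp only [app, mem_sUn, mem_sep]
  constructor
  · rintro ⟨w, ⟨_, hw⟩, hz⟩
    rw [hf.2 x y w h hw]; exact hz
  · intro hz
    exact ⟨y, ⟨by simpa using snd_mem_sUn h, h⟩, hz⟩

theorem IsFn.pr_mem_iff {f x y : M} (hf : IsFn f) : pr x y ∈ f ↔ x ∈ dom f ∧ app f x = y := by
  constructor
  · intro h
    exact ⟨mem_dom.2 ⟨y, h⟩, hf.app_eq h⟩
  · rintro ⟨h1, h2⟩
    obtain ⟨y', hy'⟩ := mem_dom.1 h1
    rw [← h2, hf.app_eq hy']
    exact hy'

theorem IsFn.app_mem {f x : M} (hf : IsFn f) (hx : x ∈ dom f) : pr x (app f x) ∈ f :=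
  hf.pr_mem_iff.2 ⟨hx, rfl⟩

theorem IsFn.ext {f g : M} (hf : IsFn f) (hg : IsFn g) (hd : dom f = dom g)
    (h : ∀ x, x ∈ dom f → app f x = app g x) : f = g := by
  refine ext' fun p => ?_
  constructor
  · intro hp
    obtain ⟨x, y, rfl⟩ := hf.1 p hp
    obtain ⟨h1, h2⟩ := hf.pr_mem_iff.1 hp
    exact hg.pr_mem_iff.2 ⟨hd ▸ h1, by rw [← h x h1]; exact h2⟩
  · intro hp
    obtain ⟨x, y, rfl⟩ := hg.1 p hp
    obtain ⟨h1, h2⟩ := hg.pr_mem_iff.1 hp
    have h3 : x ∈ dom f := by rw [hd]; exact h1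
    exact hf.pr_mem_iff.2 ⟨h3, by rw [h x h3]; exact h2⟩

/-- the definable function `t` restricted to the set `a`, as a set of pairs -/
noncomputable def gr (t : M → M) (a : M) : M := img (fun x => pr x (t x)) a

instance Ft.gr {t : Γ → M → M} {s : Γ → M} [ht : Ft (fun p : Γ × M => t p.1 p.2)]
    [hs : Ft s] : Ft (fun γ => gr (t γ) (s γ)) :=
  Ft.img (t := fun γ x => pr x (t γ x)) (s := s)

theorem pr_mem_gr {t : M → M} [Ft₁ t] {a x y : M} : pr x y ∈ gr t a ↔ x ∈ a ∧ y = t x := by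
  simp only [gr, mem_img, pr_inj]
  constructor
  · rintro ⟨x', hx', rfl, rfl⟩
    exact ⟨hx', rfl⟩
  · rintro ⟨hx, rfl⟩
    exact ⟨x, hx, rfl, rfl⟩

theorem mem_gr {t : M → M} [Ft₁ t] {a z : M} : z ∈ gr t a ↔ ∃ x, x ∈ a ∧ z = pr x (t x) := by
  simp only [gr, mem_img]

theorem gr_isFn {t : M → M} [Ft₁ t] {a : M} : IsFn (gr t a) := by
  constructor
  · intro p hp
    obtain ⟨x, _, rfl⟩ := mem_gr.1 hp
    exact ⟨_, _, rfl⟩
  · intro x y y' h h'
    rw [(pr_mem_gr.1 h).2, (pr_mem_gr.1 h').2]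

@[simp] theorem dom_gr {t : M → M} [Ft₁ t] {a : M} : dom (gr t a) = a := by
  refine ext' fun x => ?_
  rw [mem_dom]
  constructor
  · rintro ⟨y, h⟩
    exact (pr_mem_gr.1 h).1
  · intro h
    exact ⟨t x, pr_mem_gr.2 ⟨h, rfl⟩⟩

theorem app_gr {t : M → M} [Ft₁ t] {a x : M} (hx : x ∈ a) : app (gr t a) x = t x :=
  gr_isFn.app_eq (pr_mem_gr.2 ⟨hx, rfl⟩)

/-- the value at an argument outside the domain is the empty set -/
theorem app_of_notMem {f x : M} (h : x ∉ dom f) : app f x = ∅ := by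
  refine ext' fun z => ?_
  simp only [app, mem_sUn, mem_sep, notMem_empty, iff_false]
  rintro ⟨w, ⟨_, hw⟩, _⟩
  exact h (mem_dom.2 ⟨w, hw⟩)

/-! ### Foundation -/

theorem foundation {x : M} (h : ∃ y, y ∈ x) : ∃ y, y ∈ x ∧ ∀ z, z ∈ x → z ∉ y :=
  (Model.zf (M := M)).foundation x h

theorem notMem_self (x : M) : x ∉ x := by
  intro h
  obtain ⟨y, hy, hy'⟩ := foundation (x := ({x} : M)) ⟨x, by simp⟩
  rw [mem_sing] at hy
  subst hy
  exact hy' y (by simp) h

theorem notMem_of_mem {x y : M} (h : x ∈ y) : y ∉ x := by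
  intro h'
  obtain ⟨z, hz, hz'⟩ := foundation (x := ({x, y} : M)) ⟨x, by simp⟩
  simp only [mem_ins, mem_sing] at hz
  rcases hz with rfl | rfl
  · exact hz' y (by simp) h'
  · exact hz' x (by simp) h

/-! ### Descriptions -/

/-- the unique `x` with `P x` (and `∅` if there is no such `x`) -/
noncomputable def iota (P : M → Prop) : M := by
  classical
  exact if h : ∃ x, P x ∧ ∀ y, P y → y = x then h.choose else ∅

theorem iota_spec {P : M → Prop} (h : ∃ x, P x ∧ ∀ y, P y → y = x) : P (iota P) := by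
  unfold iota
  rw [dif_pos h]
  exact h.choose_spec.1

theorem iota_eq {P : M → Prop} {x : M} (hx : P x) (h : ∀ y, P y → y = x) : iota P = x :=
  h _ (iota_spec ⟨x, hx, h⟩)

instance Ft.iota {P : Γ → M → Prop} [h : Fo M (fun p : Γ × M => P p.1 p.2)] :
    Ft (fun γ => iota (P γ)) := by
  have h1 : Fo M (fun q : (Γ × M) × M => P q.1.1 q.2) :=
    h.pull (f := fun q : (Γ × M) × M => (q.1.1, q.2)) (rearr_fst_map rearr_fst)
  have h2 : Fo M (fun q : ((Γ × M) × M) × M => P q.1.1.1 q.2) :=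
    h.pull (f := fun q : ((Γ × M) × M) × M => (q.1.1.1, q.2))
      (rearr_fst_map (rearr_fst.comp rearr_fst))
  refine ⟨Fo.congr (P := fun p : Γ × M =>
    ((∃ x, P p.1 x ∧ ∀ y, P p.1 y → y = x) ∧ P p.1 p.2) ∨
    ((¬ ∃ x, P p.1 x ∧ ∀ y, P p.1 y → y = x) ∧ p.2 = ∅)) inferInstance fun p => ?_⟩
  by_cases hp : ∃ x, P p.1 x ∧ ∀ y, P p.1 y → y = x
  · have h3 := iota_spec hp
    obtain ⟨x, hx, hx'⟩ := hp
    have h4 : Pool.Agent.ZF.iota (P p.1) = x := hx' _ h3
    constructor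
    · intro h5
      left
      exact ⟨⟨x, hx, hx'⟩, by rw [h5]; exact h3⟩
    · rintro (⟨_, h5⟩ | ⟨h5, _⟩)
      · rw [h4]; exact hx' _ h5
      · exact absurd ⟨x, hx, hx'⟩ h5
  · have h4 : Pool.Agent.ZF.iota (P p.1) = ∅ := by
      unfold Pool.Agent.ZF.iota
      rw [dif_neg hp]
    rw [h4]
    simp [hp]

/-- restriction of a function to a set -/
noncomputable def res (f a : M) : M := sep f (fun p => fst p ∈ a)

instance : Ft₂ (res : M → M → M) := by unfold res; infer_instance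

theorem pr_mem_res {f a x y : M} : pr x y ∈ res f a ↔ pr x y ∈ f ∧ x ∈ a := by
  simp [res]

theorem IsFn.res {f a : M} (hf : IsFn f) : IsFn (res f a) := by
  constructor
  · intro p hp
    exact hf.1 p (mem_sep.1 hp).1
  · intro x y y' h h'
    exact hf.2 x y y' (pr_mem_res.1 h).1 (pr_mem_res.1 h').1

theorem mem_dom_res {f a x : M} : x ∈ dom (Pool.Agent.ZF.res f a) ↔ x ∈ dom f ∧ x ∈ a := by
  simp only [mem_dom, pr_mem_res]
  constructor
  · rintro ⟨y, h1, h2⟩; exact ⟨⟨y, h1⟩, h2⟩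
  · rintro ⟨⟨y, h1⟩, h2⟩; exact ⟨y, h1, h2⟩

theorem app_res {f a x : M} (hx : x ∈ a) : app (Pool.Agent.ZF.res f a) x = app f x := by
  refine ext' fun z => ?_
  simp only [app, mem_sUn, mem_sep, pr_mem_res]
  constructor
  · rintro ⟨w, ⟨_, h2, _⟩, h3⟩
    exact ⟨w, ⟨by simpa using snd_mem_sUn h2, h2⟩, h3⟩
  · rintro ⟨w, ⟨_, h2⟩, h3⟩
    exact ⟨w, ⟨by simpa using snd_mem_sUn (pr_mem_res.2 ⟨h2, hx⟩), h2, hx⟩, h3⟩

/-- disjointness -/
def Disj (x y : M) : Prop := ∀ z, z ∈ x → z ∉ y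

instance : Fo₂ (Disj : M → M → Prop) := by unfold Disj; infer_instance

theorem Disj.symm {x y : M} (h : Disj x y) : Disj y x := fun z h1 h2 => h z h2 h1

end

end Pool.Agent.ZF
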