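import Mathlib
import Pool.Agent.ZF.Ops

/-!
# Finite sets in a model of `ZF`
-/

universe u

namespace Pool.Agent.ZF

section

variable {M : Type u} [Model M]

/-- Kuratowski finite sets: `x` belongs to every family that contains `∅` and is closed under
adding an element of `x` -/
def KFin (x : M) : Prop :=
  ∀ X : M, ∅ ∈ X → (∀ y, y ∈ X → ∀ a, a ∈ x → insert a y ∈ X) → x ∈ X

instance : Fo₁ (KFin : M → Prop) := by unfold KFin; infer_instance

theorem KFin.empty : KFin (∅ : M) := fun _ h _ => h

theorem KFin.ins {x : M} (a : M) (hx : KFin x) : KFin (insert a x : M) := by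
  intro X h0 hX
  exact hX x (hx X h0 fun y hy b hb => hX y hy b (mem_ins.2 (Or.inr hb))) a
    (mem_ins.2 (Or.inl rfl))

theorem KFin.induction (P : M → Prop) [Fo₁ P] (h0 : P ∅)
    (hs : ∀ y a, KFin y → a ∉ y → P y → P (insert a y)) {x : M} (hx : KFin x) : P x := by
  have h1 : x ∈ sep (Pool.Agent.ZF.pow x) (fun y => KFin y ∧ P y) := by
    refine hx _ ?_ ?_
    · rw [mem_sep]
      exact ⟨mem_pow.2 (empty_sub x), KFin.empty, h0⟩
    · intro y hy a ha
      rw [mem_sep] at hy ⊢
      obtain ⟨hy1, hy2, hy3⟩ := hy
      rw [mem_pow] at hy1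
      refine ⟨mem_pow.2 ?_, hy2.ins a, ?_⟩
      · intro z hz
        rcases mem_ins.1 hz with rfl | hz
        · exact ha
        · exact hy1 z hz
      · by_cases hay : a ∈ y
        · have h2 : (insert a y : M) = y := by
            refine ext' fun z => ?_
            rw [mem_ins]
            constructor
            · rintro (rfl | h)
              · exact hay
              · exact h
            · exact Or.inr
          rw [h2]
          exact hy3
        · exact hs y a hy2 hay hy3
  exact (mem_sep.1 h1).2.2

theorem KFin.sing (a : M) : KFin ({a} : M) := by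
  have h : ({a} : M) = insert a (∅ : M) := by
    refine ext' fun z => ?_
    simp
  rw [h]
  exact KFin.empty.ins a

theorem KFin.subset {x y : M} (hx : KFin x) (h : y ⊆ x) : KFin y := by
  have key : ∀ y : M, y ⊆ x → KFin y := by
    refine KFin.induction (fun x => ∀ y : M, y ⊆ x → KFin y) ?_ ?_ hx
    · intro y hy
      have h1 : y = ∅ := sub_antisymm hy (empty_sub y)
      rw [h1]
      exact KFin.empty
    · intro x a _ _ ih y hy
      have h1 : KFin (y \ {a}) := by
        refine ih _ fun z hz => ?_
        rw [mem_dif, mem_sing] at hz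
        rcases mem_ins.1 (hy z hz.1) with h2 | h2
        · exact absurd h2 hz.2
        · exact h2
      by_cases ha : a ∈ y
      · have h2 : y = insert a (y \ {a}) := by
          refine ext' fun z => ?_
          rw [mem_ins, mem_dif, mem_sing]
          constructor
          · intro hz
            by_cases hza : z = a
            · exact Or.inl hza
            · exact Or.inr ⟨hz, hza⟩
          · rintro (rfl | hz)
            · exact ha
            · exact hz.1
        rw [h2]
        exact h1.ins a
      · have h2 : y = y \ {a} := by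
          refine ext' fun z => ?_
          rw [mem_dif, mem_sing]
          constructor
          · intro hz
            refine ⟨hz, ?_⟩
            rintro rfl
            exact ha hz
          · exact fun hz => hz.1
        rw [h2]
        exact h1
  exact key y h

theorem KFin.un {x y : M} (hx : KFin x) (hy : KFin y) : KFin (x ∪ y) := by
  refine KFin.induction (fun x => KFin (x ∪ y)) ?_ ?_ hx
  · have h : (∅ : M) ∪ y = y := by
      refine ext' fun z => ?_
      simp
    rw [h]
    exact hy
  · intro x a _ _ ih
    have h : (insert a x : M) ∪ y = insert a (x ∪ y) := by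
      refine ext' fun z => ?_
      simp only [mem_un, mem_ins]
      tauto
    rw [h]
    exact ih.ins a

theorem KFin.img (t : M → M) [Ft₁ t] {x : M} (hx : KFin x) : KFin (img t x) := by
  refine KFin.induction (fun x => KFin (Pool.Agent.ZF.img t x)) ?_ ?_ hx
  · have h : Pool.Agent.ZF.img t (∅ : M) = ∅ := by
      refine ext' fun z => ?_
      simp
    rw [h]
    exact KFin.empty
  · intro x a _ _ ih
    have h : Pool.Agent.ZF.img t (insert a x : M) = insert (t a) (Pool.Agent.ZF.img t x) := by
      refine ext' fun z => ?_
      simp only [mem_img, mem_ins]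
      constructor
      · rintro ⟨w, rfl | hw, rfl⟩
        · exact Or.inl rfl
        · exact Or.inr ⟨w, hw, rfl⟩
      · rintro (rfl | ⟨w, hw, rfl⟩)
        · exact ⟨a, Or.inl rfl, rfl⟩
        · exact ⟨w, Or.inr hw, rfl⟩
    rw [h]
    exact ih.ins (t a)

theorem KFin.sUn {x : M} (hx : KFin x) (h : ∀ y, y ∈ x → KFin y) : KFin (sUn x) := by
  refine KFin.induction (fun x => (∀ y, y ∈ x → KFin y) → KFin (Pool.Agent.ZF.sUn x))
    ?_ ?_ hx h
  · intro _
    have h : Pool.Agent.ZF.sUn (∅ : M) = ∅ := by
      refine ext' fun z => ?_
      simp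
    rw [h]
    exact KFin.empty
  · intro x a _ _ ih h1
    have h : Pool.Agent.ZF.sUn (insert a x : M) = a ∪ Pool.Agent.ZF.sUn x := by
      refine ext' fun z => ?_
      simp only [mem_sUn, mem_ins, mem_un]
      constructor
      · rintro ⟨w, rfl | hw, hz⟩
        · exact Or.inl hz
        · exact Or.inr ⟨w, hw, hz⟩
      · rintro (hz | ⟨w, hw, hz⟩)
        · exact ⟨a, Or.inl rfl, hz⟩
        · exact ⟨w, Or.inr hw, hz⟩
    rw [h]
    exact (h1 a (mem_ins.2 (Or.inl rfl))).un (ih fun y hy => h1 y (mem_ins.2 (Or.inr hy)))

theorem KFin.pow {x : M} (hx : KFin x) : KFin (pow x) := by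
  refine KFin.induction (fun x => KFin (Pool.Agent.ZF.pow x)) ?_ ?_ hx
  · have h : Pool.Agent.ZF.pow (∅ : M) = {∅} := by
      refine ext' fun z => ?_
      rw [mem_pow, mem_sing]
      constructor
      · intro hz
        exact sub_antisymm hz (empty_sub z)
      · rintro rfl
        exact empty_sub _
    rw [h]
    exact KFin.sing _
  · intro x a _ _ ih
    have h : Pool.Agent.ZF.pow (insert a x : M) =
        Pool.Agent.ZF.pow x ∪ Pool.Agent.ZF.img (fun y => insert a y) (Pool.Agent.ZF.pow x) := by
      refine ext' fun z => ?_
      rw [mem_un, mem_pow, mem_pow, mem_img]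
      constructor
      · intro hz
        by_cases ha : a ∈ z
        · right
          refine ⟨z \ {a}, mem_pow.2 fun w hw => ?_, ?_⟩
          · rw [mem_dif, mem_sing] at hw
            rcases mem_ins.1 (hz w hw.1) with h2 | h2
            · exact absurd h2 hw.2
            · exact h2
          · refine ext' fun w => ?_
            rw [mem_ins, mem_dif, mem_sing]
            constructor
            · intro hw
              by_cases hwa : w = a
              · exact Or.inl hwa
              · exact Or.inr ⟨hw, hwa⟩
            · rintro (rfl | hw)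
              · exact ha
              · exact hw.1
        · left
          intro w hw
          rcases mem_ins.1 (hz w hw) with h2 | h2
          · subst h2
            exact absurd hw ha
          · exact h2
      · rintro (hz | ⟨y, hy, rfl⟩)
        · intro w hw
          exact mem_ins.2 (Or.inr (hz w hw))
        · intro w hw
          rcases mem_ins.1 hw with h2 | h2
          · exact mem_ins.2 (Or.inl h2)
          · exact mem_ins.2 (Or.inr (mem_pow.1 hy w h2))
    rw [h]
    exact ih.un (KFin.img _ ih)

theorem KFin.prod {x y : M} (hx : KFin x) (hy : KFin y) : KFin (prod x y) := by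
  refine KFin.induction (fun x => KFin (Pool.Agent.ZF.prod x y)) ?_ ?_ hx
  · have h : Pool.Agent.ZF.prod (∅ : M) y = ∅ := by
      refine ext' fun z => ?_
      rw [mem_prod]
      simp
    rw [h]
    exact KFin.empty
  · intro x a _ _ ih
    have h : Pool.Agent.ZF.prod (insert a x : M) y =
        Pool.Agent.ZF.img (fun b => pr a b) y ∪ Pool.Agent.ZF.prod x y := by
      refine ext' fun z => ?_
      rw [mem_un, mem_prod, mem_prod, mem_img]
      constructor
      · rintro ⟨w, hw, b, hb, rfl⟩
        rcases mem_ins.1 hw with rfl | hw
        · exact Or.inl ⟨b, hb, rfl⟩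
        · exact Or.inr ⟨w, hw, b, hb, rfl⟩
      · rintro (⟨b, hb, rfl⟩ | ⟨w, hw, b, hb, rfl⟩)
        · exact ⟨a, mem_ins.2 (Or.inl rfl), b, hb, rfl⟩
        · exact ⟨w, mem_ins.2 (Or.inr hw), b, hb, rfl⟩
    rw [h]
    exact (KFin.img _ hy).un ih

end

end Pool.Agent.ZF
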