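import Mathlib
import Pool.Agent.ZF.Fin1

/-!
# Finite sets in a model of `ZF`, continued
-/

universe u

namespace Pool.Agent.ZF

section

variable {M : Type u} [Model M]

/-- if `t` maps `x` injectively into a finite set then `x` is finite -/
theorem KFin.of_injOn (t : M → M) [Ft₁ t] {x y : M} (hy : KFin y) (h : ∀ u, u ∈ x → t u ∈ y)
    (inj : ∀ u, u ∈ x → ∀ v, v ∈ x → t u = t v → u = v) : KFin x := by
  have h1 : x = Pool.Agent.ZF.img (fun v => iota (fun u => u ∈ x ∧ t u = v))
      (sep y (fun v => ∃ u, u ∈ x ∧ t u = v)) := by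
    refine ext' fun z => ?_
    simp only [mem_img, mem_sep]
    constructor
    · intro hz
      refine ⟨t z, ⟨h z hz, z, hz, rfl⟩, ?_⟩
      exact (iota_eq (P := fun u => u ∈ x ∧ t u = t z) ⟨hz, rfl⟩
        (fun w hw => inj w hw.1 z hz hw.2)).symm
    · rintro ⟨v, ⟨-, u, hu, huv⟩, hz⟩
      have : iota (fun u => u ∈ x ∧ t u = v) = u :=
        iota_eq (P := fun u => u ∈ x ∧ t u = v) ⟨hu, huv⟩
          (fun w hw => inj w hw.1 u hu (hw.2.trans huv.symm))
      rw [hz, this]
      exact hu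
  rw [h1]
  exact KFin.img _ (hy.subset fun z hz => (mem_sep.1 hz).1)

/-- a set without three different elements is finite -/
theorem KFin.of_two {x : M}
    (h : ∀ u, u ∈ x → ∀ v, v ∈ x → ∀ w, w ∈ x → u = v ∨ v = w ∨ u = w) : KFin x := by
  by_cases h0 : ∃ u, u ∈ x
  · obtain ⟨u, hu⟩ := h0
    by_cases h1 : ∃ v, v ∈ x ∧ v ≠ u
    · obtain ⟨v, hv, hvu⟩ := h1
      refine (KFin.ins u (KFin.sing v)).subset fun w hw => ?_
      rw [mem_ins, mem_sing]
      rcases h u hu v hv w hw with h2 | h2 | h2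
      · exact absurd h2.symm hvu
      · exact Or.inr h2.symm
      · exact Or.inl h2.symm
    · refine (KFin.sing u).subset fun w hw => ?_
      rw [mem_sing]
      by_contra h2
      exact h1 ⟨w, hw, h2⟩
  · refine KFin.empty.subset fun w hw => ?_
    exact absurd ⟨w, hw⟩ h0

/-- if `t` maps `x` into a finite set and the fibres are finite then `x` is finite -/
theorem KFin.of_fibres (t : M → M) [Ft₁ t] {x y : M} (hy : KFin y) (h : ∀ u, u ∈ x → t u ∈ y)
    (fib : ∀ v, v ∈ y → KFin (sep x (fun u => t u = v))) : KFin x := by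
  have h1 : KFin (Pool.Agent.ZF.sUn (Pool.Agent.ZF.img (fun v => sep x (fun u => t u = v)) y)) := by
    refine KFin.sUn (KFin.img _ hy) fun z hz => ?_
    rw [mem_img] at hz
    obtain ⟨v, hv, rfl⟩ := hz
    exact fib v hv
  refine h1.subset fun z hz => ?_
  rw [mem_sUn]
  refine ⟨sep x (fun u => t u = t z), ?_, ?_⟩
  · rw [mem_img]
    exact ⟨t z, h z hz, rfl⟩
  · rw [mem_sep]
    exact ⟨hz, rfl⟩

/-- every nonempty family of subsets of a finite set has a minimal element -/
theorem KFin.exists_min {x : M} (hx : KFin x) {X : M} (hX : X ⊆ Pool.Agent.ZF.pow x)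
    (hne : ∃ y, y ∈ X) : ∃ m, m ∈ X ∧ ∀ z, z ∈ X → z ⊆ m → z = m := by
  have key : ∀ X : M, X ⊆ Pool.Agent.ZF.pow x → (∃ y, y ∈ X) →
      ∃ m, m ∈ X ∧ ∀ z, z ∈ X → z ⊆ m → z = m := by
    refine KFin.induction (fun x : M => ∀ X : M, X ⊆ Pool.Agent.ZF.pow x → (∃ y, y ∈ X) →
      ∃ m, m ∈ X ∧ ∀ z, z ∈ X → z ⊆ m → z = m) ?_ ?_ hx
    · rintro X hX ⟨y, hy⟩
      refine ⟨y, hy, fun z hz _ => ?_⟩
      have e : ∀ z, z ∈ X → z = ∅ := fun z hz =>
        sub_antisymm (mem_pow.1 (hX z hz)) (empty_sub z)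
      rw [e z hz, e y hy]
    · rintro y a - ha ih X hX hne
      by_cases h0 : ∃ z, z ∈ sep X (fun z => a ∉ z)
      · obtain ⟨m, hm, hmin⟩ := ih (sep X (fun z => a ∉ z)) (by
          intro z hz
          rw [mem_sep] at hz
          rw [mem_pow]
          intro w hw
          have := mem_pow.1 (hX z hz.1) w hw
          rw [mem_ins] at this
          rcases this with rfl | this
          · exact absurd hw hz.2
          · exact this) h0
        rw [mem_sep] at hm
        refine ⟨m, hm.1, fun z hz hzm => hmin z ?_ hzm⟩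
        rw [mem_sep]
        exact ⟨hz, fun h => hm.2 (hzm a h)⟩
      · have hall : ∀ z, z ∈ X → a ∈ z := by
          intro z hz
          by_contra h
          exact h0 ⟨z, mem_sep.2 ⟨hz, h⟩⟩
        obtain ⟨m', hm', hmin⟩ := ih (Pool.Agent.ZF.img (fun z => z \ {a}) X) (by
          intro z hz
          rw [mem_img] at hz
          obtain ⟨w, hw, rfl⟩ := hz
          rw [mem_pow]
          intro v hv
          rw [mem_dif, mem_sing] at hv
          have := mem_pow.1 (hX w hw) v hv.1
          rw [mem_ins] at this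
          exact this.resolve_left hv.2) (by
          obtain ⟨z, hz⟩ := hne
          exact ⟨z \ {a}, mem_img.2 ⟨z, hz, rfl⟩⟩)
        rw [mem_img] at hm'
        obtain ⟨m, hm, rfl⟩ := hm'
        refine ⟨m, hm, fun z hz hzm => ?_⟩
        have h1 : z \ {a} = m \ {a} := by
          refine hmin _ (mem_img.2 ⟨z, hz, rfl⟩) fun w hw => ?_
          rw [mem_dif] at hw ⊢
          exact ⟨hzm w hw.1, hw.2⟩
        refine sub_antisymm hzm fun w hw => ?_
        by_cases hwa : w = a
        · rw [hwa]; exact hall z hz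
        · have h2 : w ∈ m \ {a} := by
            rw [mem_dif, mem_sing]
            exact ⟨hw, hwa⟩
          rw [← h1, mem_dif] at h2
          exact h2.1
  exact key X hX hne

/-- an injective map from a finite set to itself is surjective -/
theorem KFin.surj_of_inj (t : M → M) [Ft₁ t] {x : M} (hx : KFin x) (h : ∀ u, u ∈ x → t u ∈ x)
    (inj : ∀ u, u ∈ x → ∀ v, v ∈ x → t u = t v → u = v) : ∀ v, v ∈ x → ∃ u, u ∈ x ∧ t u = v := by
  intro v hv
  by_contra hcon
  obtain ⟨m, hm, hmin⟩ := hx.exists_min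
    (X := sep (Pool.Agent.ZF.pow x) (fun y => Pool.Agent.ZF.img t y ⊆ y ∧ ∃ v, v ∈ y ∧
      v ∉ Pool.Agent.ZF.img t y))
    (fun z hz => (mem_sep.1 hz).1)
    ⟨x, by
      rw [mem_sep]
      refine ⟨by rw [mem_pow]; exact sub_refl' x, ?_, v, hv, ?_⟩
      · intro z hz
        rw [mem_img] at hz
        obtain ⟨u, hu, rfl⟩ := hz
        exact h u hu
      · intro hv'
        rw [mem_img] at hv'
        obtain ⟨u, hu, huv⟩ := hv'
        exact hcon ⟨u, hu, huv.symm⟩⟩
  rw [mem_sep, mem_pow] at hm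
  obtain ⟨hmx, hmt, w, hw, hw'⟩ := hm
  have h1 : Pool.Agent.ZF.img t m = m := by
    refine hmin _ ?_ hmt
    rw [mem_sep, mem_pow]
    refine ⟨sub_trans' hmt hmx, ?_, t w, ?_, ?_⟩
    · intro z hz
      rw [mem_img] at hz
      obtain ⟨u, hu, rfl⟩ := hz
      exact mem_img.2 ⟨u, hmt u hu, rfl⟩
    · exact mem_img.2 ⟨w, hw, rfl⟩
    · intro hz
      rw [mem_img] at hz
      obtain ⟨u, hu, hwu⟩ := hz
      have := inj w (hmx w hw) u (hmx u (hmt u hu)) hwu
      rw [this] at hw'
      exact hw' hu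
  rw [h1] at hw'
  exact hw' hw

/-- finite choice -/
theorem KFin.choice (R : M → M → Prop) [Fo₂ R] {x : M} (hx : KFin x)
    (h : ∀ u, u ∈ x → ∃ v, R u v) : ∃ g : M, IsFn g ∧ dom g = x ∧ ∀ u, u ∈ x → R u (app g u) := by
  have key : (∀ u, u ∈ x → ∃ v, R u v) →
      ∃ g : M, IsFn g ∧ dom g = x ∧ ∀ u, u ∈ x → R u (app g u) := by
    refine KFin.induction (fun x : M => (∀ u, u ∈ x → ∃ v, R u v) →
      ∃ g : M, IsFn g ∧ dom g = x ∧ ∀ u, u ∈ x → R u (app g u)) ?_ ?_ hx
    · intro _
      refine ⟨∅, ⟨fun p hp => absurd hp (notMem_empty p),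
        fun x y y' hp => absurd hp (notMem_empty _)⟩, ?_, fun u hu => absurd hu (notMem_empty u)⟩
      refine ext' fun z => ?_
      rw [mem_dom]
      constructor
      · rintro ⟨y, hy⟩
        exact absurd hy (notMem_empty _)
      · intro hz
        exact absurd hz (notMem_empty _)
    · rintro y a - ha ih hR
      obtain ⟨g, hg, hd, hgR⟩ := ih fun u hu => hR u (mem_ins.2 (Or.inr hu))
      obtain ⟨v, hv⟩ := hR a (mem_ins.2 (Or.inl rfl))
      have hag : ∀ w, pr a w ∉ g := by
        intro w hw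
        apply ha
        rw [← hd, mem_dom]
        exact ⟨w, hw⟩
      have hmem : ∀ p q, pr p q ∈ (insert (pr a v) g : M) ↔ (p = a ∧ q = v) ∨ pr p q ∈ g := by
        intro p q
        rw [mem_ins, pr_inj]
      have hfn : IsFn (insert (pr a v) g : M) := by
        constructor
        · intro p hp
          rw [mem_ins] at hp
          rcases hp with rfl | hp
          · exact ⟨a, v, rfl⟩
          · exact hg.1 p hp
        · intro p q q' hq hq'
          rw [hmem] at hq hq'
          rcases hq with ⟨rfl, rfl⟩ | hq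
          · rcases hq' with ⟨-, rfl⟩ | hq'
            · rfl
            · exact absurd hq' (hag _)
          · rcases hq' with ⟨rfl, rfl⟩ | hq'
            · exact absurd hq (hag _)
            · exact hg.2 p q q' hq hq'
      refine ⟨insert (pr a v) g, hfn, ?_, ?_⟩
      · refine ext' fun z => ?_
        rw [mem_dom, mem_ins, ← hd, mem_dom]
        constructor
        · rintro ⟨w, hw⟩
          rw [hmem] at hw
          rcases hw with ⟨rfl, -⟩ | hw
          · exact Or.inl rfl
          · exact Or.inr ⟨w, hw⟩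
        · rintro (rfl | ⟨w, hw⟩)
          · exact ⟨v, (hmem _ _).2 (Or.inl ⟨rfl, rfl⟩)⟩
          · exact ⟨w, (hmem _ _).2 (Or.inr hw)⟩
      · intro u hu
        rw [mem_ins] at hu
        rcases hu with rfl | hu
        · rw [hfn.app_eq ((hmem u v).2 (Or.inl ⟨rfl, rfl⟩))]
          exact hv
        · have h1 : pr u (app g u) ∈ g := hg.app_mem (by rw [hd]; exact hu)
          rw [hfn.app_eq ((hmem _ _).2 (Or.inr h1))]
          exact hgR u hu
  exact key h

end

end Pool.Agent.ZF
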