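import Mathlib
import Pool.Agent.ZF.Fin2

/-!
# The set `ω` of natural numbers in a model of `ZF`
-/

universe u

namespace Pool.Agent.ZF

section

variable {M : Type u} [Model M]

/-- successor -/
noncomputable def succ (n : M) : M := insert n n

instance : Ft₁ (succ : M → M) := by unfold succ; infer_instance

@[simp] theorem mem_succ {n z : M} : z ∈ succ n ↔ z = n ∨ z ∈ n := by simp [succ]

/-- `X` is inductive -/
def Inductive (X : M) : Prop := ∅ ∈ X ∧ ∀ m, m ∈ X → succ m ∈ X

instance : Fo₁ (Inductive : M → Prop) := by unfold Inductive; infer_instance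

/-- `n` is a natural number: an element of every inductive set -/
def IsNat (n : M) : Prop := ∀ X : M, Inductive X → n ∈ X

instance : Fo₁ (IsNat : M → Prop) := by unfold IsNat; infer_instance

theorem exists_om : ∃ b : M, ∀ z, z ∈ b ↔ IsNat z := by
  obtain ⟨X, ⟨e, he, he'⟩, hX⟩ := (Model.zf (M := M)).infinity
  have h0 : e = ∅ := eq_empty_iff.2 he'
  have hI : Inductive X := by
    refine ⟨h0 ▸ he, fun m hm => ?_⟩
    obtain ⟨s, hs, hs'⟩ := hX m hm
    have : s = succ m := ext' fun z => by
      rw [mem_succ]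
      exact (hs' z).trans or_comm
    rw [← this]
    exact hs
  refine ⟨sep X IsNat, fun z => ?_⟩
  rw [mem_sep]
  exact ⟨fun h => h.2, fun h => ⟨h X hI, h⟩⟩

/-- the set of natural numbers -/
noncomputable def om : M := theSet (fun z => IsNat z)

theorem mem_om {n : M} : n ∈ (om : M) ↔ IsNat n := mem_theSet exists_om

theorem om_inductive : Inductive (om : M) := by
  refine ⟨mem_om.2 fun X hX => hX.1, fun m hm => mem_om.2 fun X hX => ?_⟩
  exact hX.2 m (mem_om.1 hm X hX)

theorem empty_mem_om : (∅ : M) ∈ (om : M) := om_inductive.1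

theorem succ_mem_om {n : M} (h : n ∈ (om : M)) : succ n ∈ (om : M) := om_inductive.2 n h

theorem om_induction (P : M → Prop) [Fo₁ P] (h0 : P ∅) (hs : ∀ n, n ∈ (om : M) → P n → P (succ n)) :
    ∀ n, n ∈ (om : M) → P n := by
  intro n hn
  have hI : Inductive (sep (om : M) P) := by
    refine ⟨mem_sep.2 ⟨empty_mem_om, h0⟩, fun m hm => ?_⟩
    rw [mem_sep] at hm
    exact mem_sep.2 ⟨succ_mem_om hm.1, hs m hm.1 hm.2⟩
  exact (mem_sep.1 (mem_om.1 hn _ hI)).2

theorem mem_om_of_mem {m n : M} (hn : n ∈ (om : M)) (hm : m ∈ n) : m ∈ (om : M) := by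
  refine om_induction (fun n : M => ∀ m, m ∈ n → m ∈ (om : M)) ?_ ?_ n hn m hm
  · intro m hm
    exact absurd hm (notMem_empty m)
  · intro n hn ih m hm
    rw [mem_succ] at hm
    rcases hm with rfl | hm
    · exact hn
    · exact ih m hm

theorem om_trans {k m n : M} (hn : n ∈ (om : M)) (hm : m ∈ n) (hk : k ∈ m) : k ∈ n := by
  refine om_induction (fun n : M => ∀ m, m ∈ n → ∀ k, k ∈ m → k ∈ n) ?_ ?_ n hn m hm k hk
  · intro m hm
    exact absurd hm (notMem_empty m)
  · intro n hn ih m hm k hk
    rw [mem_succ] at hm ⊢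
    rcases hm with rfl | hm
    · exact Or.inr hk
    · exact Or.inr (ih m hm k hk)

theorem eq_or_empty_mem {n : M} (hn : n ∈ (om : M)) : n = ∅ ∨ ∅ ∈ n := by
  refine om_induction (fun n : M => n = ∅ ∨ ∅ ∈ n) (Or.inl rfl) ?_ n hn
  intro n hn ih
  right
  rw [mem_succ]
  rcases ih with h | h
  · exact Or.inl h.symm
  · exact Or.inr h

theorem succ_mem_or_eq {m n : M} (hn : n ∈ (om : M)) (hm : m ∈ n) : succ m = n ∨ succ m ∈ n := by
  refine om_induction (fun n : M => ∀ m, m ∈ n → succ m = n ∨ succ m ∈ n) ?_ ?_ n hn m hm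
  · intro m hm
    exact absurd hm (notMem_empty m)
  · intro n hn ih m hm
    rw [mem_succ] at hm
    rcases hm with rfl | hm
    · exact Or.inl rfl
    · right
      rw [mem_succ]
      exact ih m hm

theorem om_total {m n : M} (hm : m ∈ (om : M)) (hn : n ∈ (om : M)) : m ∈ n ∨ m = n ∨ n ∈ m := by
  refine om_induction (fun m : M => m ∈ n ∨ m = n ∨ n ∈ m) ?_ ?_ m hm
  · rcases eq_or_empty_mem hn with h | h
    · exact Or.inr (Or.inl h.symm)
    · exact Or.inl h
  · intro m hm ih
    rcases ih with h | h | h
    · rcases succ_mem_or_eq hn h with h | h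
      · exact Or.inr (Or.inl h)
      · exact Or.inl h
    · right; right
      rw [mem_succ]
      exact Or.inl h.symm
    · right; right
      rw [mem_succ]
      exact Or.inr h

theorem succ_inj {m n : M} (h : succ m = succ n) : m = n := by
  have h1 : m ∈ succ n := by rw [← h, mem_succ]; exact Or.inl rfl
  have h2 : n ∈ succ m := by rw [h, mem_succ]; exact Or.inl rfl
  rw [mem_succ] at h1 h2
  rcases h1 with h1 | h1
  · exact h1
  · rcases h2 with h2 | h2
    · exact h2.symm
    · exact absurd h2 (notMem_of_mem h1)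

theorem succ_ne_empty (m : M) : succ m ≠ ∅ := by
  intro h
  have h1 : m ∈ succ m := by rw [mem_succ]; exact Or.inl rfl
  rw [h] at h1
  exact notMem_empty m h1

theorem eq_empty_or_succ {n : M} (hn : n ∈ (om : M)) :
    n = ∅ ∨ ∃ m, m ∈ (om : M) ∧ n = succ m := by
  refine om_induction (fun n : M => n = ∅ ∨ ∃ m, m ∈ (om : M) ∧ n = succ m) (Or.inl rfl) ?_ n hn
  intro n hn _
  exact Or.inr ⟨n, hn, rfl⟩

/-- the union of a successor is the predecessor -/
theorem sUn_succ {n : M} (hn : n ∈ (om : M)) : sUn (succ n) = n := by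
  refine ext' fun z => ?_
  rw [mem_sUn]
  constructor
  · rintro ⟨y, hy, hz⟩
    rw [mem_succ] at hy
    rcases hy with rfl | hy
    · exact hz
    · exact om_trans hn hy hz
  · intro hz
    exact ⟨n, mem_succ.2 (Or.inl rfl), hz⟩

theorem KFin.of_mem_om {n : M} (hn : n ∈ (om : M)) : KFin n := by
  refine om_induction (fun n : M => KFin n) KFin.empty ?_ n hn
  intro n _ ih
  exact KFin.ins n ih

theorem om_not_KFin : ¬ KFin (om : M) := by
  intro h
  obtain ⟨u, _, hu⟩ := KFin.surj_of_inj (succ : M → M) h (fun u hu => succ_mem_om hu)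
    (fun u _ v _ huv => succ_inj huv) ∅ empty_mem_om
  exact succ_ne_empty u hu

/-- the least element of a nonempty set of natural numbers -/
noncomputable def least (S : M) : M := iota (fun n => n ∈ S ∧ ∀ m, m ∈ S → m ∉ n)

instance : Ft₁ (least : M → M) := by unfold least; infer_instance

theorem least_spec {S : M} (hS : S ⊆ om) (hne : ∃ n, n ∈ S) :
    least S ∈ S ∧ ∀ m, m ∈ S → m ∉ least S := by
  refine iota_spec (M := M) (P := fun n => n ∈ S ∧ ∀ m, m ∈ S → m ∉ n) ?_
  obtain ⟨y, hy, hy'⟩ := foundation (M := M) (x := S) hne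
  refine ⟨y, ⟨hy, hy'⟩, fun z hz => ?_⟩
  rcases om_total (hS z hz.1) (hS y hy) with h | h | h
  · exact absurd h (hy' z hz.1)
  · exact h
  · exact absurd h (hz.2 y hy)

theorem least_mem {S : M} (hS : S ⊆ om) (hne : ∃ n, n ∈ S) : least S ∈ S :=
  (least_spec hS hne).1

/-- a set is finite iff it is in bijection with a natural number -/
theorem KFin_iff {x : M} : KFin x ↔ ∃ n f : M, n ∈ (om : M) ∧ IsFn f ∧ dom f = n ∧ ran f = x ∧
    ∀ u, u ∈ n → ∀ v, v ∈ n → app f u = app f v → u = v := by
  constructor
  · intro hx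
    refine KFin.induction (fun x : M => ∃ n f : M, n ∈ (om : M) ∧ IsFn f ∧ dom f = n ∧
      ran f = x ∧ ∀ u, u ∈ n → ∀ v, v ∈ n → app f u = app f v → u = v) ?_ ?_ hx
    · refine ⟨∅, ∅, empty_mem_om, ⟨?_, ?_⟩, ?_, ?_, ?_⟩
      · intro p hp
        exact absurd hp (notMem_empty p)
      · intro x y y' h
        exact absurd h (notMem_empty _)
      · refine ext' fun z => ?_
        simp
      · refine ext' fun z => ?_
        simp
      · intro u hu
        exact absurd hu (notMem_empty u)
    · rintro y a _ ha ⟨n, f, hn, hf, hd, hr, hi⟩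
      have hmem : ∀ u v : M, pr u v ∈ (insert (pr n a) f : M) ↔ (u = n ∧ v = a) ∨ pr u v ∈ f := by
        intro u v
        rw [mem_ins, pr_inj]
      have hnf : ∀ v : M, pr n v ∉ f := by
        intro v h
        have h1 : n ∈ dom f := mem_dom.2 ⟨v, h⟩
        rw [hd] at h1
        exact notMem_self n h1
      have hg : IsFn (insert (pr n a) f : M) := by
        refine ⟨?_, ?_⟩
        · intro p hp
          rw [mem_ins] at hp
          rcases hp with rfl | hp
          · exact ⟨n, a, rfl⟩
          · exact hf.1 p hp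
        · intro u v v' h h'
          rw [hmem] at h h'
          rcases h with ⟨rfl, rfl⟩ | h
          · rcases h' with ⟨_, rfl⟩ | h'
            · rfl
            · exact absurd h' (hnf _)
          · rcases h' with ⟨rfl, rfl⟩ | h'
            · exact absurd h (hnf _)
            · exact hf.2 u v v' h h'
      have happn : app (insert (pr n a) f : M) n = a :=
        hg.app_eq ((hmem n a).2 (Or.inl ⟨rfl, rfl⟩))
      have happ : ∀ u, u ∈ n → app (insert (pr n a) f : M) u = app f u := by
        intro u hu
        refine hg.app_eq ((hmem _ _).2 (Or.inr ?_))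
        exact hf.app_mem (by rw [hd]; exact hu)
      have hfa : ∀ u, u ∈ n → app f u ≠ a := by
        intro u hu h
        apply ha
        rw [← hr, mem_ran]
        refine ⟨u, ?_⟩
        rw [← h]
        exact hf.app_mem (by rw [hd]; exact hu)
      refine ⟨succ n, insert (pr n a) f, succ_mem_om hn, hg, ?_, ?_, ?_⟩
      · refine ext' fun z => ?_
        rw [mem_dom, mem_succ]
        constructor
        · rintro ⟨v, hv⟩
          rw [hmem] at hv
          rcases hv with ⟨rfl, _⟩ | hv
          · exact Or.inl rfl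
          · right
            rw [← hd]
            exact mem_dom.2 ⟨v, hv⟩
        · rintro (rfl | hz)
          · exact ⟨a, (hmem _ _).2 (Or.inl ⟨rfl, rfl⟩)⟩
          · rw [← hd, mem_dom] at hz
            obtain ⟨v, hv⟩ := hz
            exact ⟨v, (hmem _ _).2 (Or.inr hv)⟩
      · refine ext' fun z => ?_
        rw [mem_ran, mem_ins]
        constructor
        · rintro ⟨u, hu⟩
          rw [hmem] at hu
          rcases hu with ⟨_, rfl⟩ | hu
          · exact Or.inl rfl
          · right
            rw [← hr]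
            exact mem_ran.2 ⟨u, hu⟩
        · rintro (rfl | hz)
          · exact ⟨n, (hmem _ _).2 (Or.inl ⟨rfl, rfl⟩)⟩
          · rw [← hr, mem_ran] at hz
            obtain ⟨u, hu⟩ := hz
            exact ⟨u, (hmem _ _).2 (Or.inr hu)⟩
      · intro u hu v hv huv
        rw [mem_succ] at hu hv
        rcases hu with rfl | hu
        · rcases hv with rfl | hv
          · rfl
          · rw [happn, happ v hv] at huv
            exact absurd huv.symm (hfa v hv)
        · rcases hv with rfl | hv
          · rw [happn, happ u hu] at huv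
            exact absurd huv (hfa u hu)
          · rw [happ u hu, happ v hv] at huv
            exact hi u hu v hv huv
  · rintro ⟨n, f, hn, hf, hd, hr, _⟩
    have h1 : img (fun u => app f u) n = x := by
      refine ext' fun z => ?_
      rw [mem_img, ← hr, mem_ran]
      constructor
      · rintro ⟨u, hu, rfl⟩
        exact ⟨u, hf.app_mem (by rw [hd]; exact hu)⟩
      · rintro ⟨u, hu⟩
        have h2 := hf.pr_mem_iff.1 hu
        rw [hd] at h2
        exact ⟨u, h2.1, h2.2.symm⟩
    rw [← h1]
    exact KFin.img (fun u => app f u) (KFin.of_mem_om hn)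

end

end Pool.Agent.ZF
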