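import Mathlib
import Pool.Agent.ZF.Om

/-!
# Well-ordered sets coded by the function `x ↦ {y : y < x}`, and recursion
-/

universe u

namespace Pool.Agent.ZF

section

variable {M : Type u} [Model M]

/-- `s` codes a well-ordering of `dom s`: `app s x` is the set of predecessors of `x` -/
structure WO (s : M) : Prop where
  fn : IsFn s
  sub : ∀ x, x ∈ dom s → app s x ⊆ dom s
  wf : ∀ X : M, X ⊆ dom s → (∃ x, x ∈ X) → ∃ m, m ∈ X ∧ ∀ y, y ∈ X → y ∉ app s m
  tot : ∀ x, x ∈ dom s → ∀ y, y ∈ dom s → x ∈ app s y ∨ x = y ∨ y ∈ app s x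

theorem WO_iff {s : M} : WO s ↔ IsFn s ∧ (∀ x, x ∈ dom s → app s x ⊆ dom s) ∧
    (∀ X : M, X ⊆ dom s → (∃ x, x ∈ X) → ∃ m, m ∈ X ∧ ∀ y, y ∈ X → y ∉ app s m) ∧
    (∀ x, x ∈ dom s → ∀ y, y ∈ dom s → x ∈ app s y ∨ x = y ∨ y ∈ app s x) :=
  ⟨fun h => ⟨h.1, h.2, h.3, h.4⟩, fun h => ⟨h.1, h.2.1, h.2.2.1, h.2.2.2⟩⟩

instance : Fo₁ (WO : M → Prop) := by
  have : (WO : M → Prop) = fun s => _ := funext fun s => propext WO_iff
  rw [this]
  infer_instance

theorem WO.irrefl {s x : M} (h : WO s) (hx : x ∈ dom s) : x ∉ app s x := by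
  obtain ⟨m, hm, hm'⟩ := h.wf {x} (fun z hz => by rw [mem_sing] at hz; rwa [hz]) ⟨x, by simp⟩
  rw [mem_sing] at hm
  subst hm
  exact hm' m (by simp)

theorem WO.asymm {s x y : M} (h : WO s) (hx : x ∈ dom s) (hy : y ∈ dom s) (hxy : x ∈ app s y) :
    y ∉ app s x := by
  obtain ⟨m, hm, hm'⟩ := h.wf {x, y} (fun z hz => by
    rw [mem_ins, mem_sing] at hz
    rcases hz with rfl | rfl <;> assumption) ⟨x, by simp⟩
  rw [mem_ins, mem_sing] at hm
  rcases hm with rfl | rfl
  · exact hm' y (by simp)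
  · exact absurd hxy (hm' x (by simp))

theorem WO.trans {s x y z : M} (h : WO s) (hz : z ∈ dom s) (hyz : y ∈ app s z)
    (hxy : x ∈ app s y) : x ∈ app s z := by
  have hy : y ∈ dom s := h.sub z hz y hyz
  have hx : x ∈ dom s := h.sub y hy x hxy
  rcases h.tot x hx z hz with h1 | h1 | h1
  · exact h1
  · subst h1
    exact absurd hxy (h.asymm hy hx hyz)
  · exfalso
    obtain ⟨m, hm, hm'⟩ := h.wf {x, y, z} (fun w hw => by
      rw [mem_ins, mem_ins, mem_sing] at hw
      rcases hw with rfl | rfl | rfl <;> assumption) ⟨x, by simp⟩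
    rw [mem_ins, mem_ins, mem_sing] at hm
    rcases hm with rfl | rfl | rfl
    · exact hm' z (by simp) h1
    · exact hm' x (by simp) hxy
    · exact hm' y (by simp) hyz

/-- induction along a well-ordering -/
theorem WO.induction {s : M} (h : WO s) (P : M → Prop) [Fo₁ P]
    (hP : ∀ x, x ∈ dom s → (∀ y, y ∈ app s x → P y) → P x) : ∀ x, x ∈ dom s → P x := by
  by_contra hc
  push Not at hc
  obtain ⟨x, hx, hx'⟩ := hc
  obtain ⟨m, hm, hm'⟩ := h.wf (sep (dom s) (fun x => ¬ P x))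
    (fun z hz => (mem_sep.1 hz).1) ⟨x, mem_sep.2 ⟨hx, hx'⟩⟩
  obtain ⟨h1, h2⟩ := mem_sep.1 hm
  refine h2 (hP m h1 fun y hy => ?_)
  by_contra h3
  exact hm' y (mem_sep.2 ⟨h.sub m h1 y hy, h3⟩) hy

/-- `N` is defined by recursion along `s` with step function `G` -/
def IsRec (s : M) (G : M → M → M) (N : M) : Prop :=
  IsFn N ∧ dom N = dom s ∧ ∀ i, i ∈ dom s → app N i = G i (res N (app s i))

theorem res_congr {N N' a : M} (hN : IsFn N) (hN' : IsFn N')
    (hd : ∀ x, x ∈ a → (x ∈ dom N ↔ x ∈ dom N')) (h : ∀ x, x ∈ a → app N x = app N' x) :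
    res N a = res N' a := by
  refine IsFn.ext hN.res hN'.res ?_ ?_
  · refine ext' fun x => ?_
    rw [mem_dom_res, mem_dom_res]
    constructor
    · rintro ⟨h1, h2⟩; exact ⟨(hd x h2).1 h1, h2⟩
    · rintro ⟨h1, h2⟩; exact ⟨(hd x h2).2 h1, h2⟩
  · intro x hx
    rw [mem_dom_res] at hx
    rw [app_res hx.2, app_res hx.2]
    exact h x hx.2

theorem IsRec.unique {s : M} (h : WO s) (G : M → M → M) [Ft₂ G] {N N' : M} (hN : IsRec s G N)
    (hN' : IsRec s G N') : N = N' := by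
  obtain ⟨h1, h2, h3⟩ := hN
  obtain ⟨h1', h2', h3'⟩ := hN'
  refine IsFn.ext h1 h1' (h2.trans h2'.symm) ?_
  rw [h2]
  refine h.induction (fun x => app N x = app N' x) fun x hx hy => ?_
  rw [h3 x hx, h3' x hx]
  congr 1
  exact res_congr h1 h1' (fun z _ => by rw [h2, h2']) hy

/-- attempts: functions on the set of predecessors of `x` that satisfy the recursion -/
def Att (s : M) (G : M → M → M) (x N : M) : Prop :=
  IsFn N ∧ dom N = app s x ∧ ∀ i, i ∈ app s x → app N i = G i (res N (app s i))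

theorem Att.unique {s : M} (h : WO s) (G : M → M → M) [Ft₂ G] {x N N' : M} (hx : x ∈ dom s)
    (hN : Att s G x N) (hN' : Att s G x N') : N = N' := by
  obtain ⟨h1, h2, h3⟩ := hN
  obtain ⟨h1', h2', h3'⟩ := hN'
  refine IsFn.ext h1 h1' (h2.trans h2'.symm) ?_
  rw [h2]
  have key : ∀ z, z ∈ dom s → z ∈ app s x → app N z = app N' z := by
    refine h.induction (fun z => z ∈ app s x → app N z = app N' z) fun z hz hy hzx => ?_
    rw [h3 z hzx, h3' z hzx]
    congr 1
    exact res_congr h1 h1' (fun z _ => by rw [h2, h2']) fun y hyz => hy y hyz (h.trans hx hzx hyz)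
  exact fun z hz => key z (h.sub x hx z hz) hz

theorem Att.res {s : M} (h : WO s) (G : M → M → M) {x y N : M} (hx : x ∈ dom s)
    (hN : Att s G x N) (hy : y ∈ app s x) : Att s G y (res N (app s y)) := by
  obtain ⟨h1, h2, h3⟩ := hN
  refine ⟨h1.res, ?_, fun i hi => ?_⟩
  · refine ext' fun z => ?_
    rw [mem_dom_res, h2]
    exact ⟨fun hz => hz.2, fun hz => ⟨h.trans hx hy hz, hz⟩⟩
  · have hyd := h.sub x hx y hy
    rw [app_res hi, h3 i (h.trans hx hy hi)]
    congr 1
    refine res_congr h1 h1.res (fun z hz => ?_) (fun z hz => ?_)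
    · rw [mem_dom_res]
      exact ⟨fun hz' => ⟨hz', h.trans hyd hi hz⟩, fun hz' => hz'.1⟩
    · rw [app_res (h.trans hyd hi hz)]

theorem exists_rec {s : M} (h : WO s) (G : M → M → M) [Ft₂ G] : ∃ N, IsRec s G N := by
  -- the values of the recursion
  have ft : Ft₁ (fun y => G y (iota (fun N => Att s G y N))) := by
    unfold Att
    infer_instance
  have fo : Fo₁ (fun y => ∃ N, Att s G y N) := by
    unfold Att
    infer_instance
  set t : M → M := fun y => G y (iota (fun N => Att s G y N)) with ht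
  have hiota : ∀ y, y ∈ dom s → (∃ N, Att s G y N) → Att s G y (iota (fun N => Att s G y N)) := by
    rintro y hy ⟨N, hN⟩
    exact iota_spec (P := fun N => Att s G y N) ⟨N, hN, fun N' hN' => Att.unique h G hy hN' hN⟩
  -- values agree
  have key : ∀ a : M, (∀ y, y ∈ a → y ∈ dom s) → (∀ y, y ∈ a → app s y ⊆ a) →
      (∀ y, y ∈ a → ∃ N, Att s G y N) →
      ∀ y, y ∈ a → app (gr t a) y = G y (res (gr t a) (app s y)) := by
    intro a ha1 ha2 ha3 y hy
    rw [app_gr hy]
    change G y (iota (fun N => Att s G y N)) = _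
    congr 1
    have hA := hiota y (ha1 y hy) (ha3 y hy)
    set Ny := iota (fun N => Att s G y N) with hNy
    obtain ⟨h1, h2, h3⟩ := hA
    refine IsFn.ext h1 gr_isFn.res ?_ ?_
    · refine ext' fun z => ?_
      rw [mem_dom_res, dom_gr, h2]
      exact ⟨fun hz => ⟨ha2 y hy z hz, hz⟩, fun hz => hz.2⟩
    · intro z hz
      rw [h2] at hz
      have hza := ha2 y hy z hz
      rw [app_res hz, app_gr hza, h3 z hz]
      change _ = G z (iota (fun N => Att s G z N))
      congr 1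
      exact Att.unique h G (ha1 z hza) (Att.res h G (ha1 y hy) ⟨h1, h2, h3⟩ hz)
        (hiota z (ha1 z hza) (ha3 z hza))
  have ex : ∀ x, x ∈ dom s → ∃ N, Att s G x N := by
    refine h.induction (fun x => ∃ N, Att s G x N) fun x hx hy => ?_
    refine ⟨gr t (app s x), gr_isFn, dom_gr, ?_⟩
    exact key (app s x) (h.sub x hx) (fun y hyx z hz => h.trans hx hyx hz) hy
  refine ⟨gr t (dom s), gr_isFn, dom_gr, ?_⟩
  exact key (dom s) (fun y hy => hy) h.sub ex

end

end Pool.Agent.ZF
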