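import Mathlib
import Pool.Agent.ZF.Rec

/-!
# Recursion on the natural numbers of a model of `ZF`
-/

universe u

namespace Pool.Agent.ZF

section

variable {M : Type u} [Model M]

/-- the usual well-ordering of the natural numbers -/
noncomputable def omWO : M := gr (fun n => n) om

theorem dom_omWO : dom (omWO : M) = om := by
  unfold omWO
  rw [dom_gr]

theorem app_omWO {n : M} (hn : n ∈ (om : M)) : app omWO n = n := by
  unfold omWO
  rw [app_gr hn]

theorem omWO_WO : WO (omWO : M) := by
  refine ⟨gr_isFn, ?_, ?_, ?_⟩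
  · intro x hx
    rw [dom_omWO] at hx ⊢
    rw [app_omWO hx]
    exact fun z hz => mem_om_of_mem hx hz
  · intro X hX hne
    obtain ⟨m, hm, hm'⟩ := foundation hne
    refine ⟨m, hm, fun y hy => ?_⟩
    have : m ∈ (om : M) := by
      rw [← dom_omWO]
      exact hX m hm
    rw [app_omWO this]
    exact hm' y hy
  · intro x hx y hy
    rw [dom_omWO] at hx hy
    rw [app_omWO hx, app_omWO hy]
    exact om_total hx hy

open Classical in
/-- recursion on the natural numbers -/
theorem exists_om_rec (a : M) (F : M → M → M) [Ft₂ F] : ∃ f : M, IsFn f ∧ dom f = om ∧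
    app f ∅ = a ∧ ∀ n, n ∈ (om : M) → app f (succ n) = F n (app f n) := by
  obtain ⟨N, h1, h2, h3⟩ := exists_rec (M := M) omWO_WO
    (fun i f => if i = ∅ then a else F (sUn i) (app f (sUn i)))
  rw [dom_omWO] at h2 h3
  beta_reduce at h3
  refine ⟨N, h1, h2, ?_, ?_⟩
  · rw [h3 _ empty_mem_om, if_pos rfl]
  · intro n hn
    rw [h3 _ (succ_mem_om hn), if_neg (succ_ne_empty n), sUn_succ hn,
      app_omWO (succ_mem_om hn), app_res (by simp)]

/-- there is an injection from `ω × ω` to `ω` -/
theorem exists_pairing : ∃ g : M, IsFn g ∧ dom g = prod om om ∧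
    (∀ m, m ∈ (om : M) → ∀ n, n ∈ (om : M) → app g (pr m n) ∈ (om : M)) ∧
    (∀ m, m ∈ (om : M) → ∀ n, n ∈ (om : M) → ∀ m', m' ∈ (om : M) → ∀ n', n' ∈ (om : M) →
      app g (pr m n) = app g (pr m' n') → m = m' ∧ n = n') := by
  -- doubling
  obtain ⟨d, d1, d2, d3, d4⟩ := exists_om_rec (M := M) ∅ (fun _ x => succ (succ x))
  have dom_d : ∀ n, n ∈ (om : M) → app d n ∈ (om : M) := by
    apply om_induction (fun n => app d n ∈ (om : M))
    · rw [d3]; exact empty_mem_om
    · intro n hn ih
      rw [d4 n hn]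
      exact succ_mem_om (succ_mem_om ih)
  have d_inj : ∀ n, n ∈ (om : M) → ∀ k, k ∈ (om : M) → app d n = app d k → n = k := by
    apply om_induction (fun n => ∀ k, k ∈ (om : M) → app d n = app d k → n = k)
    · intro k hk h
      rcases eq_empty_or_succ hk with rfl | ⟨j, hj, rfl⟩
      · rfl
      · rw [d3, d4 j hj] at h
        exact absurd h.symm (succ_ne_empty _)
    · intro n hn ih k hk h
      rcases eq_empty_or_succ hk with rfl | ⟨j, hj, rfl⟩
      · rw [d3, d4 n hn] at h
        exact absurd h (succ_ne_empty _)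
      · rw [d4 n hn, d4 j hj] at h
        rw [ih j hj (succ_inj (succ_inj h))]
  have odd : ∀ n, n ∈ (om : M) → ∀ k, k ∈ (om : M) → succ (app d n) ≠ app d k := by
    apply om_induction (fun n => ∀ k, k ∈ (om : M) → succ (app d n) ≠ app d k)
    · intro k hk h
      rcases eq_empty_or_succ hk with rfl | ⟨j, hj, rfl⟩
      · rw [d3] at h
        exact succ_ne_empty _ h
      · rw [d3, d4 j hj] at h
        exact succ_ne_empty _ (succ_inj h).symm
    · intro n hn ih k hk h
      rcases eq_empty_or_succ hk with rfl | ⟨j, hj, rfl⟩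
      · rw [d3] at h
        exact succ_ne_empty _ h
      · rw [d4 n hn, d4 j hj] at h
        exact ih j hj (succ_inj (succ_inj h))
  -- iterated doubling of the odd numbers
  obtain ⟨H, H1, H2, H3, H4⟩ := exists_om_rec (M := M) (gr (fun n => succ (app d n)) om)
    (fun _ h => gr (fun n => app d (app h n)) om)
  have H3' : ∀ n, n ∈ (om : M) → app (app H ∅) n = succ (app d n) := by
    intro n hn
    rw [H3, app_gr hn]
  have H4' : ∀ m, m ∈ (om : M) → ∀ n, n ∈ (om : M) →
      app (app H (succ m)) n = app d (app (app H m) n) := by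
    intro m hm n hn
    rw [H4 m hm, app_gr hn]
  have dom_H : ∀ m, m ∈ (om : M) → ∀ n, n ∈ (om : M) → app (app H m) n ∈ (om : M) := by
    apply om_induction (fun m => ∀ n, n ∈ (om : M) → app (app H m) n ∈ (om : M))
    · intro n hn
      rw [H3' n hn]
      exact succ_mem_om (dom_d n hn)
    · intro m hm ih n hn
      rw [H4' m hm n hn]
      exact dom_d _ (ih n hn)
  have H_inj : ∀ m, m ∈ (om : M) → ∀ n, n ∈ (om : M) → ∀ m', m' ∈ (om : M) → ∀ n', n' ∈ (om : M) →
      app (app H m) n = app (app H m') n' → m = m' ∧ n = n' := by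
    apply om_induction (fun m => ∀ n, n ∈ (om : M) → ∀ m', m' ∈ (om : M) → ∀ n', n' ∈ (om : M) →
      app (app H m) n = app (app H m') n' → m = m' ∧ n = n')
    · intro n hn m' hm' n' hn' h
      rcases eq_empty_or_succ hm' with rfl | ⟨j, hj, rfl⟩
      · rw [H3' n hn, H3' n' hn'] at h
        exact ⟨rfl, d_inj n hn n' hn' (succ_inj h)⟩
      · rw [H3' n hn, H4' j hj n' hn'] at h
        exact absurd h (odd n hn _ (dom_H j hj n' hn'))
    · intro m hm ih n hn m' hm' n' hn' h
      rcases eq_empty_or_succ hm' with rfl | ⟨j, hj, rfl⟩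
      · rw [H3' n' hn', H4' m hm n hn] at h
        exact absurd h.symm (odd n' hn' _ (dom_H m hm n hn))
      · rw [H4' m hm n hn, H4' j hj n' hn'] at h
        obtain ⟨h1, h2⟩ := ih n hn j hj n' hn' (d_inj _ (dom_H m hm n hn) _ (dom_H j hj n' hn') h)
        exact ⟨by rw [h1], h2⟩
  have app_g : ∀ m, m ∈ (om : M) → ∀ n, n ∈ (om : M) →
      app (gr (fun p => app (app H (fst p)) (snd p)) (prod om om)) (pr m n) = app (app H m) n := by
    intro m hm n hn
    rw [app_gr (by rw [pr_mem_prod]; exact ⟨hm, hn⟩), fst_pr, snd_pr]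
  refine ⟨gr (fun p => app (app H (fst p)) (snd p)) (prod om om), gr_isFn, dom_gr, ?_, ?_⟩
  · intro m hm n hn
    rw [app_g m hm n hn]
    exact dom_H m hm n hn
  · intro m hm n hn m' hm' n' hn' h
    rw [app_g m hm n hn, app_g m' hm' n' hn'] at h
    exact H_inj m hm n hn m' hm' n' hn' h

end

end Pool.Agent.ZF
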