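import Mathlib
import Pool.Agent.ZF.Ops

/-!
# The Bourbaki–Witt theorem in a model of `ZF`
-/

universe u

namespace Pool.Agent.ZF

section

variable {M : Type u} [Model M]

/-- `C` is a chain for the relation `le` -/
def Chain (le : M → M → Prop) (C : M) : Prop := ∀ x, x ∈ C → ∀ y, y ∈ C → le x y ∨ le y x

instance (le : M → M → Prop) [Fo₂ le] : Fo₁ (Chain le) := by unfold Chain; infer_instance

/-- `U` is a tower: a subset of `S` containing `x₀` and closed under `F` and under the suprema of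
nonempty chains -/
def IsTower (S : M) (le : M → M → Prop) (sup F : M → M) (x₀ : M) (U : M) : Prop :=
  U ⊆ S ∧ x₀ ∈ U ∧ (∀ x, x ∈ U → F x ∈ U) ∧
    ∀ C : M, C ⊆ U → (∃ x, x ∈ C) → Chain le C → sup C ∈ U

instance (S : M) (le : M → M → Prop) [Fo₂ le] (sup F : M → M) [Ft₁ sup] [Ft₁ F] (x₀ : M) :
    Fo₁ (IsTower S le sup F x₀) := by unfold IsTower; infer_instance

/-- the smallest tower -/
noncomputable def tower (S : M) (le : M → M → Prop) (sup F : M → M) (x₀ : M) : M :=
  sep S (fun x => ∀ U, IsTower S le sup F x₀ U → x ∈ U)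

theorem mem_tower {S : M} {le : M → M → Prop} [Fo₂ le] {sup F : M → M} [Ft₁ sup] [Ft₁ F]
    {x₀ x : M} : x ∈ tower S le sup F x₀ ↔ x ∈ S ∧ ∀ U, IsTower S le sup F x₀ U → x ∈ U := by
  unfold tower
  rw [mem_sep]

/-- **Bourbaki–Witt**: a strictly increasing definable map `F` of a nonempty partially ordered
set `S` into itself cannot exist if every nonempty chain has a least upper bound given by a
definable function `sup`. -/
theorem bourbaki_witt (S : M) (le : M → M → Prop) [Fo₂ le] (sup F : M → M) [Ft₁ sup] [Ft₁ F]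
    (refl : ∀ x, x ∈ S → le x x)
    (trans : ∀ x, x ∈ S → ∀ y, y ∈ S → ∀ z, z ∈ S → le x y → le y z → le x z)
    (antisymm : ∀ x, x ∈ S → ∀ y, y ∈ S → le x y → le y x → x = y)
    (sup_mem : ∀ C : M, C ⊆ S → (∃ x, x ∈ C) → Chain le C → sup C ∈ S)
    (le_sup : ∀ C : M, C ⊆ S → (∃ x, x ∈ C) → Chain le C → ∀ x, x ∈ C → le x (sup C))
    (sup_le : ∀ C : M, C ⊆ S → (∃ x, x ∈ C) → Chain le C →
      ∀ u, u ∈ S → (∀ x, x ∈ C → le x u) → le (sup C) u)
    (F_mem : ∀ x, x ∈ S → F x ∈ S) (le_F : ∀ x, x ∈ S → le x (F x))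
    (F_ne : ∀ x, x ∈ S → F x ≠ x) (x₀ : M) (hx₀ : x₀ ∈ S) : False := by
  have hS : IsTower S le sup F x₀ S :=
    ⟨fun z hz => hz, hx₀, F_mem, sup_mem⟩
  have hT : IsTower S le sup F x₀ (tower S le sup F x₀) := by
    refine ⟨fun z hz => (mem_tower.1 hz).1, mem_tower.2 ⟨hx₀, fun U hU => hU.2.1⟩, ?_, ?_⟩
    · intro x hx
      have hx' := mem_tower.1 hx
      exact mem_tower.2 ⟨F_mem x hx'.1, fun U hU => hU.2.2.1 x (hx'.2 U hU)⟩
    · intro C hC hne hch
      refine mem_tower.2 ⟨sup_mem C (fun z hz => (mem_tower.1 (hC z hz)).1) hne hch, ?_⟩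
      intro U hU
      exact hU.2.2.2 C (fun z hz => (mem_tower.1 (hC z hz)).2 U hU) hne hch
  have hTS : ∀ x, x ∈ tower S le sup F x₀ → x ∈ S := fun x hx => (mem_tower.1 hx).1
  -- the induction principle
  have ind : ∀ (P : M → Prop) [Fo₁ P], P x₀ → (∀ x, x ∈ tower S le sup F x₀ → P x → P (F x)) →
      (∀ C : M, C ⊆ tower S le sup F x₀ → (∃ x, x ∈ C) → Chain le C → (∀ x, x ∈ C → P x) →
        P (sup C)) → ∀ x, x ∈ tower S le sup F x₀ → P x := by
    intro P _ h0 h1 h2 x hx
    have h3 : IsTower S le sup F x₀ (sep (tower S le sup F x₀) P) := by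
      refine ⟨fun z hz => hTS z (mem_sep.1 hz).1, mem_sep.2 ⟨hT.2.1, h0⟩, ?_, ?_⟩
      · intro z hz
        exact mem_sep.2 ⟨hT.2.2.1 z (mem_sep.1 hz).1, h1 z (mem_sep.1 hz).1 (mem_sep.1 hz).2⟩
      · intro C hC hne hch
        exact mem_sep.2 ⟨hT.2.2.2 C (fun z hz => (mem_sep.1 (hC z hz)).1) hne hch,
          h2 C (fun z hz => (mem_sep.1 (hC z hz)).1) hne hch (fun z hz => (mem_sep.1 (hC z hz)).2)⟩
    exact (mem_sep.1 ((mem_tower.1 hx).2 _ h3)).2
  have hbase : ∀ x, x ∈ tower S le sup F x₀ → le x₀ x := by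
    refine ind (fun x => le x₀ x) (refl x₀ hx₀) ?_ ?_
    · intro x hx h
      exact trans _ hx₀ _ (hTS x hx) _ (F_mem _ (hTS x hx)) h (le_F x (hTS x hx))
    · rintro C hC ⟨y, hy⟩ hch h
      have hCS : C ⊆ S := fun z hz => hTS z (hC z hz)
      exact trans _ hx₀ _ (hCS y hy) _ (sup_mem C hCS ⟨y, hy⟩ hch) (h y hy)
        (le_sup C hCS ⟨y, hy⟩ hch y hy)
  -- extreme elements
  have hM : ∀ c, c ∈ tower S le sup F x₀ →
      (∀ x, x ∈ tower S le sup F x₀ → le x c → x ≠ c → le (F x) c) →
      ∀ x, x ∈ tower S le sup F x₀ → le x c ∨ le (F c) x := by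
    intro c hc hext
    have hcS := hTS c hc
    refine ind (fun x => le x c ∨ le (F c) x) (Or.inl (hbase c hc)) ?_ ?_
    · intro x hx h
      have hxS := hTS x hx
      rcases h with h | h
      · by_cases hxc : x = c
        · right
          rw [hxc]
          exact refl _ (F_mem c hcS)
        · left
          exact hext x hx h hxc
      · right
        exact trans _ (F_mem c hcS) _ hxS _ (F_mem x hxS) h (le_F x hxS)
    · intro C hC hne hch h
      have hCS : C ⊆ S := fun z hz => hTS z (hC z hz)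
      by_cases hall : ∀ x, x ∈ C → le x c
      · left
        exact sup_le C hCS hne hch c hcS hall
      · right
        push Not at hall
        obtain ⟨x, hx, hxc⟩ := hall
        have h1 : le (F c) x := (h x hx).resolve_left hxc
        exact trans _ (F_mem c hcS) _ (hCS x hx) _ (sup_mem C hCS hne hch) h1
          (le_sup C hCS hne hch x hx)
  have hE : ∀ c, c ∈ tower S le sup F x₀ →
      ∀ x, x ∈ tower S le sup F x₀ → le x c → x ≠ c → le (F x) c := by
    refine ind (fun c => ∀ x, x ∈ tower S le sup F x₀ → le x c → x ≠ c → le (F x) c) ?_ ?_ ?_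
    · intro x hx h1 h2
      exact absurd (antisymm _ (hTS x hx) _ hx₀ h1 (hbase x hx)) h2
    · intro c hc hext x hx h1 h2
      have hcS := hTS c hc
      have hxS := hTS x hx
      rcases hM c hc hext x hx with h | h
      · by_cases hxc : x = c
        · rw [hxc]
          exact refl _ (F_mem c hcS)
        · exact trans _ (F_mem x hxS) _ hcS _ (F_mem c hcS) (hext x hx h hxc) (le_F c hcS)
      · exact absurd (antisymm _ hxS _ (F_mem c hcS) h1 h) h2
    · intro C hC hne hch h x hx h1 h2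
      have hCS : C ⊆ S := fun z hz => hTS z (hC z hz)
      have hxS := hTS x hx
      have hsT := hT.2.2.2 C hC hne hch
      have hsS := hTS _ hsT
      by_cases hall : ∀ c, c ∈ C → le (F c) x
      · exfalso
        apply h2
        refine antisymm _ hxS _ hsS h1 (sup_le C hCS hne hch x hxS ?_)
        intro c hc
        exact trans _ (hCS c hc) _ (F_mem c (hCS c hc)) _ hxS (le_F c (hCS c hc)) (hall c hc)
      · push Not at hall
        obtain ⟨c, hc, hcx⟩ := hall
        have h3 := (hM c (hC c hc) (h c hc) x hx).resolve_right hcx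
        have h4 := le_sup C hCS hne hch c hc
        by_cases hxc : x = c
        · rcases hM c (hC c hc) (h c hc) _ hsT with h5 | h5
          · exfalso
            apply h2
            rw [hxc]
            exact antisymm _ (hCS c hc) _ hsS h4 h5
          · rw [hxc]
            exact h5
        · exact trans _ (F_mem x hxS) _ (hCS c hc) _ hsS (h c hc x hx h3 hxc) h4
  have hchain : Chain le (tower S le sup F x₀) := by
    intro x hx y hy
    rcases hM x hx (hE x hx) y hy with h | h
    · exact Or.inr h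
    · exact Or.inl (trans _ (hTS x hx) _ (F_mem x (hTS x hx)) _ (hTS y hy) (le_F x (hTS x hx)) h)
  have hne : ∃ x, x ∈ tower S le sup F x₀ := ⟨x₀, hT.2.1⟩
  have hTS' : tower S le sup F x₀ ⊆ S := hT.1
  have hc : sup (tower S le sup F x₀) ∈ tower S le sup F x₀ :=
    hT.2.2.2 _ (fun z hz => hz) hne hchain
  have hcS := hTS _ hc
  have hFc := hT.2.2.1 _ hc
  exact F_ne _ hcS (antisymm _ (F_mem _ hcS) _ hcS (le_sup _ hTS' hne hchain _ hFc) (le_F _ hcS))

end

end Pool.Agent.ZF
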